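import Pool.Agent.Lib.MP_b2e238_gt.K.Mat
import Pool.Agent.Lib.MP_b2e238_gt.K.Hl
import Pool.Agent.Lib.MP_b2e238_gt.K.Rot

/-! A block loop with an odd winding number. -/

open scoped Topology ContDiff
open Set Complex

noncomputable section

namespace Pool.Agent.Lib.MP_b2e238_gt

theorem blk_sign {f : ℝ → ℝ} (c : Continuous f) (n : ∀ t, f t ≠ 0) :
    (∀ t, 0 < f t) ∨ ∀ t, f t < 0 := by
  by_contra h
  simp only [not_or, not_forall, not_lt] at h
  obtain ⟨⟨s, hs⟩, t, ht⟩ := h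
  obtain ⟨x, hx⟩ := intermediate_value_univ s t c ⟨hs, ht⟩
  exact n x hx

theorem blk_lin (B : ℂ →L[ℝ] ℂ) (z : ℂ) : B z = z.re * B 1 + z.im * B I := by
  conv_lhs => rw [show z = z.re • (1 : ℂ) + z.im • I by simp]
  rw [map_add, map_smul, map_smul, real_smul, real_smul]

theorem blk_det {B : ℂ →L[ℝ] ℂ} (h : Function.Injective B) :
    ((starRingEnd ℂ) (B 1) * B I).im ≠ 0 := fun e => by
  have k := (injective_iff_map_eq_zero _).1 h
  have z := k ⟨-((starRingEnd ℂ) (B 1) * B I).re, normSq (B 1)⟩ (by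
    rw [blk_lin]
    generalize B 1 = b at *
    generalize B I = c at *
    simp only [mul_im, conj_re, conj_im] at e
    refine Complex.ext ?_ ?_ <;> simp [normSq_apply]
    · linear_combination -b.im * e
    · linear_combination b.re * e)
  exact one_ne_zero (k 1 (normSq_eq_zero.1 (congrArg im z)))

theorem blk_slit {B : ℂ →L[ℝ] ℂ} (h : 0 < ((starRingEnd ℂ) (B 1) * B I).im) {u : ℂ} (hu : u ≠ 0) :
    B u / (B 1 * u) ∈ slitPlane := by
  by_contra k
  have b0 : B 1 ≠ 0 := fun e => by simp [e] at h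
  rw [mem_slitPlane_iff, not_or, not_lt, not_not] at k
  have e := div_mul_cancel₀ (B u) (mul_ne_zero b0 hu)
  generalize B u / (B 1 * u) = q at k e
  rw [blk_lin B u] at e
  have n := normSq_pos.2 b0
  generalize B 1 = b at *
  generalize B I = c at *
  have e1 := congrArg re e
  have e2 := congrArg im e
  simp only [mul_im, conj_re, conj_im] at h
  simp only [mul_re, mul_im, add_re, add_im, ofReal_re, ofReal_im, k.2] at e1 e2
  rw [normSq_apply] at n
  have y : u.im * (b.re * c.im + -b.im * c.re - q.re * (b.re * b.re + b.im * b.im)) = 0 := by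
    linear_combination b.im * e1 - b.re * e2
  have y0 := (mul_eq_zero.1 y).resolve_right (ne_of_gt (by nlinarith [k.1]))
  rw [y0] at e1 e2
  have x : u.re * ((1 - q.re) * (b.re * b.re + b.im * b.im)) = 0 := by
    linear_combination -b.re * e1 - b.im * e2
  exact hu (Complex.ext ((mul_eq_zero.1 x).resolve_right
    (mul_pos (by linarith [k.1]) n).ne') y0)

theorem blk_odd (j : ℤ) :
    Hl (Inj E3) (fun t => mu (ex ((2 * j + 1 : ℤ) * t))) fun t => mu (ex t) := by
  induction j using Int.induction_on with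
  | zero => simpa using (hl_two 1).symm.trans (hl_two 1)
  | succ j ih =>
    refine .trans ?_ ih
    convert hl_two (2 * j + 1) using 5
    push_cast
    ring
  | pred j ih =>
    refine .trans ?_ ih
    convert (hl_two (2 * (-j - 1) + 1)).symm using 5
    push_cast
    ring

theorem blk_pos {A : ℝ → E3 →L[ℝ] E3} {B : ℝ → ℂ →L[ℝ] ℂ} {a : ℝ → ℝ} {u : ℝ → ℂ} {m : ℤ}
    (cB : Continuous B) (ca : Continuous a) (pB : ∀ t, B (t + 1) = B t) (pa : ∀ t, a (t + 1) = a t)
    (dB : ∀ t, 0 < ((starRingEnd ℂ) (B t 1) * B t I).im) (na : ∀ t, 0 < a t)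
    (e : ∀ t z s, A t (z, s) = ((a t * s : ℝ) + I * (B t z).re, (B t z).im))
    (W : Wn u m) (hm : Odd m) (hu : ∀ t, (B t (u t)).im ≠ 0) :
    Hl (Inj E3) A fun t => mu (ex t) := by
  obtain ⟨α, hα⟩ : ∃ α : ℝ → E3 →L[ℝ] E3, ∀ t x, α t x = (B t x.1, a t * x.2) :=
    ⟨fun t => (B t).prodMap (a t • ContinuousLinearMap.id ℝ ℝ), fun _ _ => rfl⟩
  have e' (t : ℝ) (x : E3) :
      A t x = ((a t * x.2 : ℝ) + I * (B t x.1).re, (B t x.1).im) := e t x.1 x.2
  have cα : Continuous α := continuous_clm_apply.2 fun x => by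
    simp only [hα]
    fun_prop
  have cA : Continuous A := continuous_clm_apply.2 fun x => by
    simp only [e']
    fun_prop
  have pα (t) : α (t + 1) = α t := ContinuousLinearMap.ext fun x => by rw [hα, hα, pB, pa]
  have pA (t) : A (t + 1) = A t := ContinuousLinearMap.ext fun x => by rw [e', e', pB, pa]
  obtain ⟨k, hk⟩ := exists_wn (a := fun t => B t 1) (by fun_prop)
    (fun t z => by simpa [show B t 1 = 0 from z] using dB t) fun t => by rw [pB]
  have cu := W.cont
  have c1 : Continuous fun t => B t (u t) := by fun_prop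
  have p1 (t) : B (t + 1) (u (t + 1)) = B t (u t) := by rw [pB, W.per]
  have km : k + m = 0 := ((hk.mul W).of_slit c1 p1 fun t => blk_slit (dB t) (W.ne t)).unique
    (wn_slit c1 (fun t => .inr (hu t)) p1)
  obtain ⟨j, rfl⟩ := hm
  obtain rfl : k = 2 * (-j - 1) + 1 := by omega
  have T := hl_tri cα pα (fun t => .inl fun x => by simp [hα]) (fun t => by simpa [hα] using na t)
    (fun t => by simpa only [hα] using dB t) (hk.congr fun t => by rw [hα])
  refine .trans ?_ (T.trans (blk_odd _))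
  have := hl_mk (Y := Inj E3) (H := fun l t => (1 - l) • A t + l • α t)
    (((continuous_const.sub continuous_fst).smul (cA.comp continuous_snd)).add
      (continuous_fst.smul (cα.comp continuous_snd))) fun l hl t => ⟨?_, by simp only [pα, pA]⟩
  · convert this using 2 <;> refine ContinuousLinearMap.ext fun x => ?_ <;>
      simp only [add_apply, smul_apply] <;> simp
  refine (injective_iff_map_eq_zero _).2 fun x z => (injective_iff_map_eq_zero _).1
    (T.facts.2.1 t) x ?_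
  rw [add_apply, smul_apply, smul_apply, e', hα] at z
  rw [hα]
  generalize B t x.1 = w at *
  generalize a t * x.2 = s at *
  have z1 := congrArg (fun v : E3 => v.1.re) z
  have z2 := congrArg (fun v : E3 => v.1.im) z
  have z3 := congrArg (fun v : E3 => v.2) z
  simp at z1 z2 z3
  have p : l ^ 3 + (1 - l) ^ 3 ≠ 0 := ne_of_gt (by nlinarith [sq_nonneg (2 * l - 1)])
  refine Prod.ext (Complex.ext ?_ ?_) ?_ <;> refine (mul_eq_zero.1 ?_).resolve_left p
  · linear_combination l ^ 2 * z1 - (1 - l) * l * z3 + (1 - l) ^ 2 * z2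
  · linear_combination l ^ 2 * z2 - (1 - l) * l * z1 + (1 - l) ^ 2 * z3
  · linear_combination l ^ 2 * z3 - (1 - l) * l * z2 + (1 - l) ^ 2 * z1

theorem blk {A : ℝ → E3 →L[ℝ] E3} {B : ℝ → ℂ →L[ℝ] ℂ} {a : ℝ → ℝ} {u : ℝ → ℂ} {m : ℤ}
    (cB : Continuous B) (ca : Continuous a) (pB : ∀ t, B (t + 1) = B t) (pa : ∀ t, a (t + 1) = a t)
    (iB : ∀ t, Function.Injective (B t)) (na : ∀ t, a t ≠ 0)
    (e : ∀ t z s, A t (z, s) = ((a t * s : ℝ) + I * (B t z).re, (B t z).im))
    (W : Wn u m) (hm : Odd m) (hu : ∀ t, (B t (u t)).re = 0 ∧ 0 < (B t (u t)).im) :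
    ∃ L : E3 ≃L[ℝ] E3, Hl (Inj E3) (fun t => A t ∘L (L : E3 →L[ℝ] E3)) fun t => mu (ex t) := by
  obtain ⟨τ, c, hτ, hc⟩ : ∃ (τ : ℝ ≃L[ℝ] ℝ) (c : ℝ), (∀ s, τ s = c * s) ∧ ∀ t, 0 < a t * c := by
    obtain h | h := blk_sign ca na
    · exact ⟨.refl ℝ ℝ, 1, by simp, by simpa using h⟩
    · exact ⟨.neg ℝ, -1, by simp, by simpa using h⟩
  obtain ⟨σ, m', hσ, W', hm'⟩ : ∃ (σ : ℂ ≃L[ℝ] ℂ) (m' : ℤ),
      (∀ t, 0 < ((starRingEnd ℂ) (B t (σ 1)) * B t (σ I)).im) ∧ Wn (fun t => σ.symm (u t)) m' ∧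
        Odd m' := by
    obtain h | h := blk_sign (f := fun t => ((starRingEnd ℂ) (B t 1) * B t I).im) (by fun_prop)
      fun t => blk_det (iB t)
    · exact ⟨.refl ℝ ℂ, m, h, W, hm⟩
    · refine ⟨conjCLE, -m, fun t => ?_, W.star, hm.neg⟩
      rw [conjCLE_apply, conjCLE_apply, map_one, conj_I, map_neg, mul_neg, neg_im]
      exact neg_pos.2 (h t)
  refine ⟨σ.prodCongr τ, blk_pos (B := fun t => B t ∘L (σ : ℂ →L[ℝ] ℂ)) (a := fun t => a t * c)
    (cB.clm_comp continuous_const) (by fun_prop) (fun t => by rw [pB]) (fun t => by rw [pa]) hσ hc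
    (fun t z s => ?_) W' hm' fun t => ?_⟩
  · exact (e t (σ z) (τ s)).trans (by rw [hτ, mul_assoc]; rfl)
  · simpa using (hu t).2.ne'

end Pool.Agent.Lib.MP_b2e238_gt
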