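import Pool.Agent.Lib.MP_b2e238_gt.P.Defs

/-! When the flow carries a real point to a real point. -/

open scoped Topology ContDiff
open Set Complex

noncomputable section

namespace Pool.Agent.Lib.MP_b2e238_gt

variable {n : ℕ}

theorem cross_im (s : ℝ) : (ex s).im = 0 ↔ ∃ j : ℤ, 2 * s = j := by
  have : (ex s).im = Real.sin (2 * Real.pi * s) := by
    rw [← exp_ofReal_mul_I_im, ex]; push_cast; rfl
  rw [this, Real.sin_eq_zero_iff]
  refine exists_congr fun j => ⟨fun e => ?_, fun e => by rw [← e]; ring⟩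
  exact mul_right_cancel₀ Real.pi_ne_zero (by linarith)

theorem cross_real (s : ℝ) {x : ℂ} (r : star x = x) :
    star (ex s * x) = ex s * x ↔ x = 0 ∨ ∃ j : ℤ, 2 * s = j := by
  have i : x.im = 0 := conj_eq_iff_im.1 r
  refine conj_eq_iff_im.trans ?_
  rw [mul_im, i, mul_zero, zero_add, mul_eq_zero, cross_im, or_comm]
  simp [Complex.ext_iff, i]

/-- `m θ` is an integer. -/
def crI (θ : ℝ) (m : ℤ) : Prop := ∃ j : ℤ, m * θ = j

theorem crI.lin {θ : ℝ} {a b c : ℤ} (h : crI θ a) (k : crI θ b) (u v : ℤ) (e : c = u * a + v * b) :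
    crI θ c := by
  obtain ⟨i, hi⟩ := h
  obtain ⟨j, hj⟩ := k
  exact ⟨u * i + v * j, by rw [e]; push_cast; linear_combination u * hi + v * hj⟩

theorem cross_iff {a : ℂ × ℂ × ℂ} (r : star a = a) (θ : ℝ) : star (act n θ a) = act n θ a ↔
    (a.1 = 0 ∨ crI θ (6 * n)) ∧ (a.2.1 = 0 ∨ crI θ (4 * n)) ∧ (a.2.2 = 0 ∨ crI θ 12) := by
  rw [Prod.ext_iff, Prod.ext_iff]
  refine and_congr ((cross_real _ (congrArg Prod.fst r)).trans ?_) (and_congr
    ((cross_real _ (congrArg (fun a => a.2.1) r)).trans ?_)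
    ((cross_real _ (congrArg (fun a => a.2.2) r)).trans ?_)) <;>
  refine or_congr_right (exists_congr fun j => Eq.congr_left ?_) <;> push_cast <;> ring

theorem cross_grid (hn : Odd n) (h3 : ¬3 ∣ n) {a : ℂ × ℂ × ℂ} (m : a ∈ Cn n) (r : star a = a) {θ : ℝ}
    (e : star (act n θ a) = act n θ a) : ∃ j : ℤ, θ = j / (12 * n) := by
  have _ := h3
  have k : (n : ℝ) ≠ 0 := Nat.cast_ne_zero.2 hn.pos.ne'
  obtain ⟨A, B, C⟩ := (cross_iff r θ).1 e
  obtain ⟨j, hj⟩ : crI θ (12 * n) := by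
    rcases A with A | A
    · rcases B with B | B
      · rcases C with C | C
        · exact (m.2 (Prod.ext A (Prod.ext B C))).elim
        · exact C.lin C n 0 (by ring)
      · exact B.lin B 3 0 (by ring)
    · exact A.lin A 2 0 (by ring)
  exact ⟨j, by rw [← hj]; push_cast; field_simp⟩

theorem cross_root (hn : Odd n) {z w : ℂ} (rz : star z = z) (rw' : star w = w)
    (e : z ^ n = w ^ n) : z = w := by
  rw [← conj_eq_iff_re.1 rz, ← conj_eq_iff_re.1 rw'] at e ⊢
  exact congrArg _ (hn.pow_injective (by exact_mod_cast e))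

theorem cross_sgn {x : ℂ} (r : star x = x) (h : x ≠ 0) {c : ℝ} (hc : c ≠ 0) :
    ∃ (i : Bool) (s : ℝ), x = Real.exp (c * s) • (bif i then 1 else -1 : ℂ) := by
  have e := conj_eq_iff_re.1 r
  rcases lt_trichotomy x.re 0 with k | k | k
  · refine ⟨false, Real.log (-x.re) / c, ?_⟩
    rw [mul_div_cancel₀ _ hc, Real.exp_log (neg_pos.2 k)]; simp [e]
  · exact (h (by rw [← e, k]; simp)).elim
  · refine ⟨true, Real.log x.re / c, ?_⟩
    rw [mul_div_cancel₀ _ hc, Real.exp_log k]; simp [e]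

theorem cross_ne (s : ℝ) : (1 : ℂ) ≠ Real.exp s • (-1 : ℂ) := fun e => by
  have := congrArg re e
  simp only [one_re, smul_re, neg_re, smul_eq_mul] at this
  linarith [Real.exp_pos s]

theorem cross_star (s : ℝ) {a : ℂ × ℂ × ℂ} (r : star a = a) : star (scl n s a) = scl n s a := by
  have k : ∀ (c : ℝ) (x : ℂ), star x = x → star (c • x) = c • x := fun c x h => by
    rw [star_smul, h, star_trivial]
  exact Prod.ext (k _ _ (congrArg Prod.fst r)) (Prod.ext (k _ _ (congrArg (fun a => a.2.1) r))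
    (k _ _ (congrArg (fun a => a.2.2) r)))

/-- Two real rays give two times modulo the period. -/
theorem cross_pair {k : ℝ → ℂ × ℂ × ℂ} (K : KP n k) {Q : ℂ × ℂ × ℂ → Prop} (p : Bool → ℂ × ℂ × ℂ)
    (hp : ∀ i, p i ∈ Cn n ∧ star (p i) = p i) (q : ∀ i r, Q (scl n r (p i)))
    (d : ∀ r, p true ≠ scl n r (p false))
    (all : ∀ a ∈ Cn n, star a = a → Q a → ∃ i r, a = scl n r (p i)) :
    ∃ t : Bool → ℝ, (∀ j : ℤ, t true ≠ t false + j) ∧
      ∀ s, Q (k s) ↔ ∃ i, ∃ j : ℤ, s = t i + j := by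
  choose t r e using fun i => K.surj _ (hp i).1 (hp i).2
  have per : ∀ (s : ℝ) (j : ℤ), k (s + j) = k s := fun s j => by
    simpa using (Function.Periodic.int_mul (c := 1) K.lp.2.2 j) s
  refine ⟨t, fun j h => d (-r true + r false) ?_, fun s => ⟨fun h => ?_, ?_⟩⟩
  · rw [← scl_scl, ← e, ← per _ j, ← h, e, scl_scl, neg_add_cancel, scl_zero]
  · obtain ⟨i, u, h⟩ := all _ (K.lp.2.1 s) (K.real s) h
    exact ⟨i, K.inj _ _ (u - r i) (by rw [e, scl_scl, sub_add_cancel, h])⟩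
  · rintro ⟨i, j, rfl⟩
    rw [per, e]; exact q _ _

theorem cross_eq (hn : n ≠ 0) {a p : ℂ × ℂ × ℂ} (m : a ∈ Cn n) (mp : p ∈ Cn n) (s : ℝ) :
    a.1 ^ 2 + a.2.1 ^ 3 + a.2.2 ^ n =
      (scl n s p).1 ^ 2 + (scl n s p).2.1 ^ 3 + (scl n s p).2.2 ^ n := by
  rw [scl_eq hn, m.1, mp.1, smul_zero]

theorem cross_two (hn : Odd n) (h3 : ¬3 ∣ n) {k : ℝ → ℂ × ℂ × ℂ} (K : KP n k) {θ : ℝ} (h0 : 0 < θ)
    (h1 : θ < 1 / 2) (e : θ = 1 / 4 ∨ ∃ s, star (act n θ (k s)) = act n θ (k s)) :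
    (ex ((6 - n) * θ)).im ≠ 0 ∧ ∃ t : Bool → ℝ, (∀ j : ℤ, t true ≠ t false + j) ∧
      ∀ s, star (act n θ (k s)) = act n θ (k s) ↔ ∃ i, ∃ j : ℤ, s = t i + j := by
  have n0 : n ≠ 0 := hn.pos.ne'
  have no : crI θ (2 * n) → crI θ 12 → False := fun A C => by
    obtain ⟨j, hj⟩ : crI θ 2 := by
      obtain ⟨u, hu⟩ := hn
      rcases (by omega : n % 6 = 1 ∨ n % 6 = 5) with h | h
      · exact A.lin C 1 (-(n / 6)) (by omega)
      · exact A.lin C (-1) (n / 6 + 1) (by omega)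
    push_cast at hj
    have a : (0 : ℝ) < j := by linarith
    have b : (j : ℝ) < 1 := by linarith
    have a' : 0 < j := by exact_mod_cast a
    have b' : j < 1 := by exact_mod_cast b
    omega
  have AB : crI θ (6 * n) → crI θ (4 * n) → crI θ (2 * n) := fun A B => A.lin B 1 (-1) (by ring)
  have xy : ∀ a ∈ Cn n, a.1 = 0 → a.2.1 ≠ 0 := fun a m x y => m.2 (Prod.ext x (Prod.ext y (by
    simpa [x, y, n0] using m.1)))
  have xz : ∀ a ∈ Cn n, a.1 = 0 → a.2.2 ≠ 0 := fun a m x z => m.2 (Prod.ext x (Prod.ext (by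
    simpa [x, z, n0] using m.1) z))
  have yz : ∀ a ∈ Cn n, a.2.1 = 0 → a.2.2 ≠ 0 := fun a m y z => m.2 (Prod.ext (by
    simpa [y, z, n0] using m.1) (Prod.ext y z))
  have two : crI θ (4 * n) ∧ crI θ 12 ∨ crI θ (6 * n) ∧ crI θ 12 ∨
      crI θ (6 * n) ∧ crI θ (4 * n) := by
    rcases e with rfl | ⟨s, e⟩
    · exact Or.inl ⟨⟨n, by push_cast; ring⟩, ⟨3, by push_cast; ring⟩⟩
    · obtain ⟨A, B, C⟩ := (cross_iff (K.real s) θ).1 e
      have := xy _ (K.lp.2.1 s)
      have := xz _ (K.lp.2.1 s)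
      have := yz _ (K.lp.2.1 s)
      tauto
  refine ⟨fun h => ?_, ?_⟩
  · obtain ⟨j, hj⟩ := (cross_im _).1 h
    have D : crI θ (12 - 2 * n) := ⟨j, by rw [← hj]; push_cast; ring⟩
    rcases two with ⟨-, C⟩ | ⟨-, C⟩ | ⟨A, B⟩
    · exact no (D.lin C (-1) 1 (by ring)) C
    · exact no (D.lin C (-1) 1 (by ring)) C
    · exact no (AB A B) (D.lin (AB A B) 1 1 (by ring))
  simp only [cross_iff (K.real _)]
  rcases two with ⟨B, C⟩ | ⟨A, C⟩ | ⟨A, B⟩
  · have A : ¬crI θ (6 * n) := fun A => no (AB A B) C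
    simp only [A, B, C, or_true, and_true, or_false]
    have hp : ∀ i : Bool, ((0, bif i then 1 else -1, bif i then -1 else 1) : ℂ × ℂ × ℂ) ∈ Cn n ∧
        star ((0, bif i then 1 else -1, bif i then -1 else 1) : ℂ × ℂ × ℂ) =
          (0, bif i then 1 else -1, bif i then -1 else 1) := fun i => by
      cases i <;> simp [Cn, hn.neg_one_pow, Prod.ext_iff] <;> norm_num
    refine cross_pair K (Q := fun a => a.1 = 0) _ hp (fun i r => by simp [scl])
      (fun r h => cross_ne _ (congrArg (fun a => a.2.1) h)) fun a m r x => ?_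
    obtain ⟨i, s, h⟩ := cross_sgn (congrArg (fun a => a.2.1) r) (xy a m x) two_ne_zero
    have x' : a.1 = (scl n s (0, bif i then 1 else -1, bif i then -1 else 1)).1 := by simp [scl, x]
    refine ⟨i, s, Prod.ext x' (Prod.ext h (cross_root hn (congrArg (fun a => a.2.2) r)
      (congrArg (fun a => a.2.2) (cross_star s (hp i).2)) ?_))⟩
    have := cross_eq n0 m (hp i).1 s
    rw [x', h] at this
    exact add_left_cancel this
  · have B : ¬crI θ (4 * n) := fun B => no (AB A B) C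
    simp only [A, B, C, or_true, and_true, true_and, or_false]
    have hp : ∀ i : Bool, ((bif i then 1 else -1, 0, -1) : ℂ × ℂ × ℂ) ∈ Cn n ∧
        star ((bif i then 1 else -1, 0, -1) : ℂ × ℂ × ℂ) = (bif i then 1 else -1, 0, -1) :=
      fun i => by cases i <;> simp [Cn, hn.neg_one_pow, Prod.ext_iff]
    refine cross_pair K (Q := fun a => a.2.1 = 0) _ hp (fun i r => by simp [scl])
      (fun r h => cross_ne _ (congrArg Prod.fst h)) fun a m r y => ?_
    obtain ⟨i, s, h⟩ := cross_sgn (congrArg Prod.fst r) (fun x => xy a m x y) three_ne_zero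
    have y' : a.2.1 = (scl n s (bif i then 1 else -1, 0, -1)).2.1 := by simp [scl, y]
    refine ⟨i, s, Prod.ext h (Prod.ext y' (cross_root hn (congrArg (fun a => a.2.2) r)
      (congrArg (fun a => a.2.2) (cross_star s (hp i).2)) ?_))⟩
    have := cross_eq n0 m (hp i).1 s
    rw [y', h] at this
    exact add_left_cancel this
  · have C : ¬crI θ 12 := no (AB A B)
    simp only [A, B, C, or_true, true_and, or_false]
    have hp : ∀ i : Bool, ((bif i then 1 else -1, -1, 0) : ℂ × ℂ × ℂ) ∈ Cn n ∧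
        star ((bif i then 1 else -1, -1, 0) : ℂ × ℂ × ℂ) = (bif i then 1 else -1, -1, 0) :=
      fun i => by cases i <;> simp [Cn, n0, Prod.ext_iff] <;> norm_num
    refine cross_pair K (Q := fun a => a.2.2 = 0) _ hp (fun i r => by simp [scl])
      (fun r h => cross_ne _ (congrArg Prod.fst h)) fun a m r z => ?_
    obtain ⟨i, s, h⟩ := cross_sgn (congrArg Prod.fst r) (fun x => xz a m x z) three_ne_zero
    have z' : a.2.2 = (scl n s (bif i then 1 else -1, -1, 0)).2.2 := by simp [scl, z]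
    refine ⟨i, s, Prod.ext h (Prod.ext (cross_root (by decide : Odd 3)
      (congrArg (fun a => a.2.1) r) (congrArg (fun a => a.2.1) (cross_star s (hp i).2)) ?_) z')⟩
    have := cross_eq n0 m (hp i).1 s
    rw [z', h] at this
    exact add_left_cancel (add_right_cancel this)

end Pool.Agent.Lib.MP_b2e238_gt
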