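import Pool.Agent.Lib.MP_b2e238_gt.P.Defs
import Pool.Agent.Lib.MP_b2e238_gt.B.Defs
import Pool.Agent.Lib.MP_b2e238_gt.K.Mat

/-! Data for the parity of the Seifert framing of the real circle. -/

open scoped Topology ContDiff
open Set Metric Complex

noncomputable section

namespace Pool.Agent.Lib.MP_b2e238_gt

/-- A tube round the real circle with the square `G` of a Seifert function. -/
structure SD (n : ℕ) (ν : ℝ × ℂ → C3) (G : C3 → ℂ) : Prop where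
  odd : Odd n
  h3 : ¬3 ∣ n
  tube : Tube (Bri n) ν 2
  kp : KP n fun t => ν (t, 0)
  st : ∀ t z, ‖z‖ < 2 → star (ν (t, z)) = ν (t, -z)
  cG : ContinuousOn G {a | a ∈ Bri n ∧ star a ≠ a}
  G0 : ∀ a ∈ Bri n, star a ≠ a → G a ≠ 0
  Gs : ∀ a ∈ Bri n, G (star a) = G a
  Gν : ∀ t z, z ≠ 0 → ‖z‖ < 1 → G (ν (t, z)) = z ^ 2

/-- The normal coordinate `Z` of the tube and the blocks `a`, `B` of its frame. -/
structure TC (n : ℕ) (ν : ℝ × ℂ → C3) (Z : C3 → ℂ) (B : ℝ → ℂ →L[ℝ] ℂ) (a : ℝ → ℝ) : Prop where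
  opn : Opn (ν '' (univ ×ˢ ball 0 1)) (Bri n)
  cZ : ContDiffOn ℝ ∞ Z (ν '' (univ ×ˢ ball 0 1))
  inv : ∀ t z, ‖z‖ < 1 → Z (ν (t, z)) = z
  cB : Continuous B
  ca : Continuous a
  pB : ∀ t, B (t + 1) = B t
  pa : ∀ t, a (t + 1) = a t
  iB : ∀ t, Function.Injective (B t)
  na : ∀ t, a t ≠ 0
  blk : ∀ (t s : ℝ) (z : ℂ), om n (ν (t, 0)) (fderiv ℝ ν (t, 0) (s, z)) =
    ((a t * s : ℝ) + I * (B t z).re, (B t z).im)
  der : ∀ (t : ℝ) (c : ℝ × ℝ → C3) (c' : ℝ × ℝ →L[ℝ] C3) (u : ℝ × ℝ), HasFDerivAt c c' u →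
    (∀ᶠ v in 𝓝 u, c v ∈ Bri n) → c u = ν (t, 0) → ∃ L : ℝ × ℝ →L[ℝ] ℂ, HasFDerivAt (Z ∘ c) L u ∧
      ∀ v, B t (L v) = (om n (c u) (c' v)).1.im + I * (om n (c u) (c' v)).2

end Pool.Agent.Lib.MP_b2e238_gt
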