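import Pool.Agent.Lib.MP_b2e238_gt.P.Defs
import Pool.Agent.Lib.MP_b2e238_gt.K.Par

/-! The core of the lifted tube is the real circle of the Brieskorn sphere. -/

open scoped Topology ContDiff
open Set Complex

noncomputable section

namespace Pool.Agent.Lib.MP_b2e238_gt

variable {V : Type} [NormedAddCommGroup V] [NormedSpace ℝ V] {n : ℕ}

theorem br_cont {P A B : Type} [NormedAddCommGroup P] [NormedSpace ℝ P] [FiniteDimensional ℝ P]
    [NormedAddCommGroup A] [NormedSpace ℝ A] [FiniteDimensional ℝ A] [NormedAddCommGroup B]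
    [NormedSpace ℝ B] {X : Set A} {Y F : Set B} {π : A → B} (h : Br P X Y F π) :
    ContinuousOn π X ∧ MapsTo π X Y := by
  refine ⟨fun a ha => ?_, fun a ha => ?_⟩
  · obtain ⟨k, φ, ψ, U, U', -, p, q, m, e⟩ := h.2.2 a ha
    obtain ⟨g, d⟩ := p.dif
    have c : ContinuousOn (fun x => ψ ((g x).1, (g x).2 ^ k)) (φ '' U) :=
      q.2.1.continuousOn.comp (d.cG.continuousOn.fst.prodMk (d.cG.continuousOn.snd.pow k))
        fun x hx => (e _ (d.mG hx)).1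
    have c' : ContinuousOn π (φ '' U) :=
      c.congr fun x hx => (congrArg π (d.fg x hx).symm).trans (e _ (d.mG hx)).2.1
    exact (c' a m).mono_of_mem_nhdsWithin (p.opn.2 a m)
  · obtain ⟨k, φ, ψ, U, U', -, -, q, ⟨u, hu, rfl⟩, e⟩ := h.2.2 a ha
    rw [(e u hu).2.1]
    exact q.2.2.2.1 (e u hu).1

/-- Off the branch set the cover is locally injective. -/
theorem fix_loc {P A B : Type} [NormedAddCommGroup P] [NormedSpace ℝ P]
    [NormedAddCommGroup A] [NormedSpace ℝ A] [NormedAddCommGroup B]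
    [NormedSpace ℝ B] {X : Set A} {Y F : Set B} {π : A → B} (h : Br P X Y F π) {a : A}
    (ha : a ∈ X) (hF : π a ∉ F) : ∃ N ∈ 𝓝[X] a, InjOn π N := by
  obtain ⟨k, φ, ψ, U, U', hk, p, q, ⟨u, hu, rfl⟩, e⟩ := h.2.2 a ha
  have key : ∀ N ∈ 𝓝 u, (∀ v ∈ N, ∀ w ∈ N, v.2 ^ k = w.2 ^ k → v.2 = w.2) →
      ∃ N ∈ 𝓝[X] φ u, InjOn π N := fun N hN i => by
    refine ⟨φ '' (U ∩ N), (p.2.2.2.2 u hu).2 _ (Filter.inter_mem (p.1.mem_nhds hu) hN), ?_⟩
    rintro _ ⟨v, hv, rfl⟩ _ ⟨w, hw, rfl⟩ E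
    rw [(e v hv.1).2.1, (e w hw.1).2.1] at E
    have E' := Prod.ext_iff.1 (q.2.2.1 (e v hv.1).1 (e w hw.1).1 E)
    rw [show v = w from Prod.ext E'.1 (i v hv.2 w hw.2 E'.2)]
  rcases hk with rfl | rfl
  · exact key univ Filter.univ_mem fun v _ w _ E => by simpa using E
  · have u0 : u.2 ≠ 0 := fun z => hF ((e u hu).2.2.2 ⟨rfl, z⟩)
    have o : IsOpen {v : P × ℂ | 0 < (v.2 / u.2).re} :=
      isOpen_lt continuous_const (by fun_prop)
    refine key _ (o.mem_nhds (by simp [u0])) fun v hv w hw E => ?_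
    refine (sq_eq_sq_iff_eq_or_eq_neg.1 E).resolve_right fun z => ?_
    have h1 : 0 < (v.2 / u.2).re := hv
    have h2 : 0 < (w.2 / u.2).re := hw
    rw [z, neg_div, neg_re] at h1
    linarith

theorem fix_mem {A : Set V} {ν : ℝ × ℂ → V} {r : ℝ} (h : Tube A ν r) (t : ℝ) {z : ℂ}
    (hz : ‖z‖ < r) : ν (t, z) ∈ A :=
  (h.2 (t - 1 / 2)).2.2.2.1 ⟨⟨by linarith, by linarith⟩, mem_ball_zero_iff.2 hz⟩

theorem fix_cont {A : Set V} {ν : ℝ × ℂ → V} {r : ℝ} (h : Tube A ν r) (hr : 0 < r) :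
    Continuous fun t => ν (t, 0) := by
  refine continuous_iff_continuousAt.2 fun t => ?_
  have p := h.2 (t - 1 / 2)
  have c : ContinuousAt ν (t, 0) := p.2.1.continuousOn.continuousAt
    (p.1.mem_nhds ⟨⟨by linarith, by linarith⟩, Metric.mem_ball_self hr⟩)
  exact c.comp (f := fun t : ℝ => (t, (0 : ℂ))) (by fun_prop)

/-- A tube is injective modulo the period. -/
theorem fix_inj {A : Set V} {ν : ℝ × ℂ → V} {r : ℝ} (h : Tube A ν r) {t t' : ℝ} {z z' : ℂ}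
    (hz : ‖z‖ < r) (hz' : ‖z'‖ < r) (e : ν (t, z) = ν (t', z')) :
    z = z' ∧ ∃ j : ℤ, t' = t + j := by
  have a := Int.floor_le (t' - t)
  have b := Int.lt_floor_add_one (t' - t)
  have p := per_int (c := fun t => ν (t, z')) (fun t => h.1 t z') (t' - ⌊t' - t⌋) ⌊t' - t⌋
  rw [sub_add_cancel, ← e] at p
  have q := Prod.ext_iff.1 ((h.2 ((t + (t' - ⌊t' - t⌋) - 1) / 2)).2.2.1
    ⟨⟨by linarith, by linarith⟩, mem_ball_zero_iff.2 hz⟩
    ⟨⟨by linarith, by linarith⟩, mem_ball_zero_iff.2 hz'⟩ p)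
  exact ⟨q.2, ⌊t' - t⌋, by linarith [q.1]⟩

theorem fix_star {a : ℂ × ℂ × ℂ} (h : a ∈ Bri n) : star a ∈ Bri n := by
  refine ⟨?_, by simpa using h.2⟩
  simpa using congrArg star h.1

theorem fix_ne {a : ℂ × ℂ × ℂ} (h : a ∈ Bri n) : a ≠ 0 := fun e => by simpa [e] using h.2

theorem fix_pow (s : ℝ) (k : ℕ) : ex s ^ k = ex (k * s) := by
  rw [ex, ex, ← exp_nat_mul]; congr 1; push_cast; ring

theorem fix_act {a : ℂ × ℂ × ℂ} (h : a ∈ Bri n) (θ : ℝ) : act n θ a ∈ Bri n := by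
  refine ⟨?_, by simpa [act, norm_ex] using h.2⟩
  have e := h.1
  simp only [act, mul_pow, fix_pow]
  rw [show ((2 : ℕ) : ℝ) * (3 * n * θ) = n * (6 * θ) by push_cast; ring,
    show ((3 : ℕ) : ℝ) * (2 * n * θ) = n * (6 * θ) by push_cast; ring, ← mul_add, ← mul_add, e,
    mul_zero]

theorem fix_conj (s : ℝ) : star (ex s) = ex (-s) := by
  rw [ex, ex, star_def, ← exp_conj]; congr 1; simp [map_ofNat]

theorem fix_zero {m : ℝ} (hm : 0 < m) {c : ℂ} (hc : star c = c)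
    (h : ∀ᶠ θ in 𝓝 (0 : ℝ), star (ex (m * θ) * c) = ex (m * θ) * c) : c = 0 := by
  by_contra c0
  have l : ∀ᶠ θ in 𝓝 (0 : ℝ), m * θ < 1 / 2 :=
    (show ContinuousAt (fun θ => m * θ) 0 by fun_prop).eventually_lt continuousAt_const (by simp)
  obtain ⟨θ, ⟨a, b⟩, p⟩ := (((h.and l).filter_mono (nhdsWithin_le_nhds (s := Ioi 0))).and
    self_mem_nhdsWithin).exists
  rw [star_mul', hc, fix_conj] at a
  obtain ⟨k, e⟩ := ex_eq (mul_right_cancel₀ c0 a)
  have q := mul_pos hm p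
  have k0 : (0 : ℝ) < k := by linarith
  have k1 : (k : ℝ) < 1 := by linarith
  norm_cast at k0 k1
  omega

/-- The real points of the Brieskorn sphere have no interior. -/
theorem fix_thin (hn : n ≠ 0) {a : ℂ × ℂ × ℂ} (ha : a ∈ Bri n) :
    ¬∀ᶠ x in 𝓝[Bri n] a, star x = x := fun h => by
  have c : Continuous fun θ => act n θ a := by
    have := contDiff_ex.continuous
    unfold act; fun_prop
  have z : act n 0 a = a := by simp [act, ex]
  have t : Filter.Tendsto (fun θ => act n θ a) (𝓝 0) (𝓝[Bri n] a) :=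
    tendsto_nhdsWithin_iff.2 ⟨c.tendsto' 0 a z, .of_forall (fix_act ha)⟩
  have e := t.eventually h
  have s : star a = a := z ▸ e.self_of_nhds
  have p : (0 : ℝ) < n := Nat.cast_pos.2 (Nat.pos_of_ne_zero hn)
  refine fix_ne ha (Prod.ext ?_ (Prod.ext ?_ ?_))
  · exact fix_zero (m := 3 * n) (by positivity) (congrArg (·.1) s)
      (e.mono fun θ k => congrArg (·.1) k)
  · exact fix_zero (m := 2 * n) (by positivity) (congrArg (·.2.1) s)
      (e.mono fun θ k => congrArg (·.2.1) k)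
  · exact fix_zero (m := 6) (by positivity) (congrArg (·.2.2) s)
      (e.mono fun θ k => congrArg (·.2.2) k)

theorem fix_core (hn : Odd n) (h3 : ¬3 ∣ n) {p : ℂ × ℂ × ℂ → (ℝ × ℂ) × ℝ} {ν' : ℝ × ℂ → ℂ × ℂ × ℂ}
    {ν : ℝ × ℂ → (ℝ × ℂ) × ℝ} (hp : Br ℝ (Bri n) (Sph ℝ) (range fun t => ν (t, 0)) p)
    (conj : ∀ a ∈ Bri n, p (star a) = p a) (hν' : Tube (Bri n) ν' 2) (hν : Tube (Sph ℝ) ν 4)
    (lift : ∀ t z, ‖z‖ < 2 → p (ν' (t, z)) = ν (t, z ^ 2)) :
    KP n (fun t => ν' (t, 0)) ∧ (∀ t z, ‖z‖ < 2 → star (ν' (t, z)) = ν' (t, -z)) ∧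
      ∀ a ∈ Bri n, (star a = a ↔ p a ∈ range fun t => ν (t, 0)) := by
  have n0 : n ≠ 0 := hn.pos.ne'
  have z2 : ‖(0 : ℂ)‖ < 2 := by simp
  have m0 (t) : ν' (t, 0) ∈ Bri n := fix_mem hν' t z2
  have l0 (t) : p (ν' (t, 0)) = ν (t, 0) := by simpa using lift t 0 z2
  have one : ∀ a ∈ Bri n, ∀ b ∈ Bri n, p a ∈ (range fun t => ν (t, 0)) → p b = p a → b = a :=
    fun a ha b hb k e => by
      obtain ⟨x, hx⟩ := ncard_eq_one.1 (hp.2.1 _ k)
      have h1 : a ∈ Bri n ∩ p ⁻¹' {p a} := ⟨ha, rfl⟩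
      have h2 : b ∈ Bri n ∩ p ⁻¹' {p a} := ⟨hb, e⟩
      rw [hx] at h1 h2
      exact h2.trans h1.symm
  have real : ∀ a ∈ Bri n, (star a = a ↔ p a ∈ range fun t => ν (t, 0)) := fun a ha => by
    refine ⟨fun s => by_contra fun k => ?_, fun k => one a ha _ (fix_star ha) k (conj a ha)⟩
    obtain ⟨N, hN, i⟩ := fix_loc hp ha k
    have t : Filter.Tendsto star (𝓝[Bri n] a) (𝓝[Bri n] a) := by
      have := (continuous_star.continuousWithinAt (s := Bri n) (x := a)).tendsto_nhdsWithin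
        (t := Bri n) fun x hx => fix_star hx
      rwa [s] at this
    refine fix_thin n0 ha ?_
    filter_upwards [hN, t hN, self_mem_nhdsWithin] with x h1 h2 h4
    exact i h2 h1 (conj x h4)
  refine ⟨⟨⟨fix_cont hν' two_pos, fun t => ⟨(m0 t).1, fix_ne (m0 t)⟩, fun t => hν'.1 t 0⟩,
    fun t => (real _ (m0 t)).2 ⟨t, (l0 t).symm⟩, fun t t' r e => ?_, fun a ha s => ?_⟩,
    fun t z hz => ?_, real⟩
  · have k := congrArg (toB n) e
    rw [toB_scl n0 r (fix_ne (m0 t)), toB_self n0 (m0 t).2, toB_self n0 (m0 t').2] at k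
    exact (fix_inj hν' z2 z2 k.symm).2
  · have m : toB n a ∈ Bri n := ⟨by rw [toB, scl_eq n0, ha.1, smul_zero], toB_norm n0 ha.2⟩
    obtain ⟨t, k⟩ := (real _ m).1 (by rw [← toB_star, s])
    exact ⟨t, _, one _ m _ (m0 t) ⟨t, k⟩ ((l0 t).trans k)⟩
  · by_cases z0 : z = 0
    · subst z0
      rw [neg_zero]
      exact (real _ (m0 t)).2 ⟨t, (l0 t).symm⟩
    have hz' : ‖-z‖ < 2 := by rwa [norm_neg]
    have z4 : ‖z ^ 2‖ < 4 := by rw [norm_pow]; nlinarith [norm_nonneg z]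
    have k : ν (t, z ^ 2) ∉ range fun t => ν (t, 0) := fun ⟨s, e⟩ =>
      pow_ne_zero 2 z0 (fix_inj hν (by simp) z4 e).1.symm
    obtain ⟨x, y, -, e⟩ := ncard_eq_two.1 (hp.1 _ ⟨fix_mem hν t z4, k⟩)
    have m := fix_mem hν' t hz
    have h1 : ν' (t, z) ∈ Bri n ∩ p ⁻¹' {ν (t, z ^ 2)} := ⟨m, lift t z hz⟩
    have h2 : ν' (t, -z) ∈ Bri n ∩ p ⁻¹' {ν (t, z ^ 2)} :=
      ⟨fix_mem hν' t hz', by simpa using lift t _ hz'⟩
    have h4 : star (ν' (t, z)) ∈ Bri n ∩ p ⁻¹' {ν (t, z ^ 2)} :=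
      ⟨fix_star m, (conj _ m).trans (lift t z hz)⟩
    have d1 : ν' (t, z) ≠ ν' (t, -z) := fun E => z0 (by
      have := (fix_inj hν' hz hz' E).1
      linear_combination this / 2)
    have d2 : star (ν' (t, z)) ≠ ν' (t, z) := fun E => k (lift t z hz ▸ (real _ m).1 E)
    rw [e] at h1 h2 h4
    rcases h1 with h1 | h1 <;> rcases h2 with h2 | h2 <;> rcases h4 with h4 | h4 <;>
      first
        | exact h4.trans h2.symm
        | exact absurd (h1.trans h2.symm) d1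
        | exact absurd (h4.trans h1.symm) d2

end Pool.Agent.Lib.MP_b2e238_gt
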