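import Pool.Agent.Lib.MP_b2e238_gt.K.Mat

/-! Two double zeros of the same sign change the winding number by four. -/

open scoped Topology ContDiff
open Set Complex

noncomputable section

namespace Pool.Agent.Lib.MP_b2e238_gt

/-- A periodic map with simple zeros at the integers and the derivative `1` there. -/
def jump_X (u : ℝ × ℝ) : ℝ × ℝ :=
  (Real.sin (2 * Real.pi * u.1) / (2 * Real.pi), Real.exp u.2 - Real.cos (2 * Real.pi * u.1))

theorem jump_X_cont : Continuous jump_X := by unfold jump_X; fun_prop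

theorem jump_X_zero {u : ℝ × ℝ} : jump_X u = 0 ↔ u.2 = 0 ∧ ∃ j : ℤ, u.1 = j := by
  have p := Real.two_pi_pos
  constructor
  · intro h
    have s : Real.sin (2 * Real.pi * u.1) = 0 :=
      (div_eq_zero_iff.1 (congrArg Prod.fst h)).resolve_right p.ne'
    have c : Real.exp u.2 = Real.cos (2 * Real.pi * u.1) := sub_eq_zero.1 (congrArg Prod.snd h)
    have e : Real.cos (2 * Real.pi * u.1) = 1 :=
      (Real.sin_eq_zero_iff_cos_eq.1 s).resolve_right fun e => by linarith [Real.exp_pos u.2]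
    obtain ⟨j, hj⟩ := (Real.cos_eq_one_iff _).1 e
    exact ⟨(Real.exp_eq_one_iff _).1 (c.trans e), j,
      mul_left_cancel₀ p.ne' (by rw [← hj, mul_comm])⟩
  · rintro ⟨h, j, e⟩
    rw [jump_X, h, e, mul_comm _ (j : ℝ), Real.cos_int_mul_two_pi, ← zero_add (_ * (2 * Real.pi)),
      Real.sin_add_int_mul_two_pi]
    simp

theorem jump_X_per (s θ : ℝ) (j : ℤ) : jump_X (s + j, θ) = jump_X (s, θ) := by
  simp only [jump_X, mul_add, mul_comm _ (j : ℝ), Real.sin_add_int_mul_two_pi,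
    Real.cos_add_int_mul_two_pi]

theorem jump_X_one (s t θ : ℝ) : jump_X (s + 1 - t, θ) = jump_X (s - t, θ) := by
  rw [← jump_X_per (s - t) θ 1, Int.cast_one, add_sub_right_comm]

theorem jump_X_der : HasFDerivAt jump_X (ContinuousLinearMap.id ℝ _) 0 := by
  have p := Real.two_pi_pos
  have h : HasFDerivAt (fun u : ℝ × ℝ => 2 * Real.pi * u.1)
      ((2 * Real.pi) • ContinuousLinearMap.fst ℝ ℝ ℝ) 0 := hasFDerivAt_fst.const_mul _
  refine ((h.sin.mul_const (2 * Real.pi)⁻¹).prodMk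
    ((hasFDerivAt_snd (𝕜 := ℝ)).exp.sub h.cos)).congr_fderiv ?_
  ext <;> simp
  field_simp

theorem jump_ind {A B : ℂ} (h : ((starRingEnd ℂ) A * B).im ≠ 0) {x y : ℝ} (e : x * A + y * B = 0) :
    x = 0 ∧ y = 0 := by
  have a := congrArg re e
  have b := congrArg im e
  simp only [add_re, add_im, re_ofReal_mul, im_ofReal_mul, zero_re, zero_im] at a b
  simp only [mul_im, conj_re, conj_im] at h
  exact ⟨mul_right_cancel₀ h (by linear_combination B.im * a - B.re * b),
    mul_right_cancel₀ h (by linear_combination A.re * b - A.im * a)⟩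

theorem jump_L (L : ℝ × ℝ →L[ℝ] ℂ) (u : ℝ × ℝ) : L u = u.1 * L (1, 0) + u.2 * L (0, 1) := by
  rw [← real_smul, ← real_smul, ← map_smul, ← map_smul, ← map_add]
  simp

theorem jump_hi {A B : ℂ} (h : ((starRingEnd ℂ) A * B).im ≠ 0) {θ : ℝ} (hθ : 0 < θ) (t : ℝ) :
    Wn (fun s => (jump_X (s - t, θ)).1 * A + (jump_X (s - t, θ)).2 * B) 0 := by
  have E := Real.one_lt_exp_iff.2 hθ
  have ne (l : ℝ) (hl : l ∈ Icc (0 : ℝ) 1) (s : ℝ) :
      ((l * (jump_X (s - t, θ)).1 : ℝ) : ℂ) * A +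
        ((1 - l) * Real.exp θ + l * (jump_X (s - t, θ)).2 : ℝ) * B ≠ 0 := fun e => by
    have := (jump_ind h e).2
    simp only [jump_X] at this
    nlinarith [Real.cos_le_one (2 * Real.pi * (s - t)), hl.1, hl.2]
  have := Wn.htpy (k := 0) (H := fun q => ((q.1 * (jump_X (q.2 - t, θ)).1 : ℝ) : ℂ) * A +
    ((1 - q.1) * Real.exp θ + q.1 * (jump_X (q.2 - t, θ)).2 : ℝ) * B)
    (by have := jump_X_cont; fun_prop) ne
    (fun l _ s => by simp only [jump_X_one])
    ((wn_cst (ne 0 ⟨le_rfl, zero_le_one⟩ 0)).congr fun s => by simp)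
  exact this.congr fun s => by simp

theorem jump_lo {A B : ℂ} (h : 0 < ((starRingEnd ℂ) A * B).im) {θ : ℝ} (hθ : θ < 0) (t : ℝ) :
    Wn (fun s => (jump_X (s - t, θ)).1 * A + (jump_X (s - t, θ)).2 * B) 1 := by
  have E := Real.exp_lt_one_iff.2 hθ
  have p := Real.two_pi_pos
  have hB : B ≠ 0 := fun e => by simp [e] at h
  have w : Wn (fun s : ℝ => -B * exp (2 * Real.pi * (s - t) * I)) (0 + 1) :=
    (wn_cst (neg_ne_zero.2 hB)).mul ⟨fun s => 2 * Real.pi * (s - t) * I, by fun_prop,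
      fun _ => rfl, fun s => by push_cast; ring⟩
  have := Wn.htpy (k := 1) (H := fun q => ((jump_X (q.2 - t, θ)).1 : ℂ) *
      ((1 - q.1) * (2 * Real.pi) * (-I * B) + q.1 * A) +
    ((jump_X (q.2 - t, θ)).2 - (1 - q.1) * Real.exp θ : ℝ) * B)
    (by have := jump_X_cont; fun_prop) (fun l hl s e => ?_)
    (fun l _ s => by simp only [jump_X_one])
    (w.congr fun s => ?_)
  · exact this.congr fun s => by simp
  · have n := normSq_pos.2 hB
    have q : ((starRingEnd ℂ) ((1 - l) * (2 * Real.pi) * (-I * B) + l * A) * B).im =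
        (1 - l) * (2 * Real.pi * normSq B) + l * ((starRingEnd ℂ) A * B).im := by
      simp [normSq_apply]
      ring
    obtain ⟨x, y⟩ := jump_ind (ne_of_gt (by
      rw [q]
      rcases hl.1.eq_or_lt with e | e
      · rw [← e]; simp only [sub_zero, one_mul, zero_mul, add_zero]; positivity
      · exact add_pos_of_nonneg_of_pos (mul_nonneg (sub_nonneg.2 hl.2) (by positivity))
          (mul_pos e h))) e
    simp only [jump_X] at x y
    have := Real.exp_pos θ
    rcases Real.sin_eq_zero_iff_cos_eq.1 ((div_eq_zero_iff.1 x).resolve_right p.ne') with c | c <;>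
      nlinarith [hl.1, hl.2]
  · have : (Real.pi : ℂ) ≠ 0 := ofReal_ne_zero.2 Real.pi_ne_zero
    simp only [jump_X, exp_mul_I]
    push_cast
    field_simp
    ring

theorem jump_lo' {A B : ℂ} (h : ((starRingEnd ℂ) A * B).im < 0) {θ : ℝ} (hθ : θ < 0) (t : ℝ) :
    Wn (fun s => (jump_X (s - t, θ)).1 * A + (jump_X (s - t, θ)).2 * B) (-1) :=
  (jump_lo (A := (starRingEnd ℂ) A) (B := (starRingEnd ℂ) B)
    (by rw [← map_mul, conj_im]; exact neg_pos.2 h) hθ t).star.congr fun s => by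
      simp only [map_add, map_mul, conj_ofReal, conj_conj]

/-- Two maps with the same injective derivative at a common zero. -/
theorem jump_lim {ζ P : ℝ × ℝ → ℂ} {L : ℝ × ℝ →L[ℝ] ℂ} {p : ℝ × ℝ} (i : Function.Injective L)
    (d : HasFDerivAt ζ L p) (d' : HasFDerivAt P L p) (z : ζ p = 0) (z' : P p = 0) :
    (∀ᶠ u in 𝓝[≠] p, P u ≠ 0) ∧ Filter.Tendsto (fun u => ζ u / P u) (𝓝[≠] p) (𝓝 1) := by
  have k : Topology.IsInducing L :=
    (LinearMap.isClosedEmbedding_of_injective (f := (L : ℝ × ℝ →ₗ[ℝ] ℂ))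
      (LinearMap.ker_eq_bot.2 i)).isInducing
  have a := d.isEquivalent_sub k
  have b := d'.isEquivalent_sub k
  simp only [z, z', sub_zero] at a b
  have n : ∀ᶠ u in 𝓝[≠] p, P u ≠ 0 := by
    filter_upwards [mem_nhdsWithin_of_mem_nhds b.symm.isBigO.eq_zero_imp, self_mem_nhdsWithin]
      with u h1 h2 e
    exact h2 (sub_eq_zero.1 (i ((h1 e).trans (map_zero L).symm)))
  exact ⟨n, (Asymptotics.isEquivalent_iff_tendsto_one n).1
    ((a.trans b.symm).mono nhdsWithin_le_nhds)⟩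

theorem jump {F : ℝ × ℝ → ℂ} {a b θ₀ e : ℝ} {t : Bool → ℝ} {ζ : Bool → ℝ × ℝ → ℂ}
    {L : Bool → ℝ × ℝ →L[ℝ] ℂ} (ha : a < θ₀) (hb : θ₀ < b) (ht : ∀ j : ℤ, t true ≠ t false + j)
    (c : ContinuousOn F {u | u.2 ∈ Icc a b ∧ ¬(u.2 = θ₀ ∧ ∃ i, ∃ j : ℤ, u.1 = t i + j)})
    (ne : ∀ u : ℝ × ℝ, u.2 ∈ Icc a b → ¬(u.2 = θ₀ ∧ ∃ i, ∃ j : ℤ, u.1 = t i + j) → F u ≠ 0)
    (per : ∀ s θ, F (s + 1, θ) = F (s, θ)) (d : ∀ i, HasFDerivAt (ζ i) (L i) (t i, θ₀))
    (z : ∀ i, ζ i (t i, θ₀) = 0) (cζ : ∀ i, ∀ᶠ u in 𝓝 (t i, θ₀), ContinuousAt (ζ i) u)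
    (sq : ∀ i, ∀ᶠ u in 𝓝[≠] (t i, θ₀), F u = ζ i u ^ 2)
    (sg : ∀ i, 0 < e * ((starRingEnd ℂ) (L i (1, 0)) * L i (0, 1)).im) {k : ℤ}
    (W : Wn (fun s => F (s, a)) k) :
    Wn (fun s => F (s, b)) (k + 4) ∨ Wn (fun s => F (s, b)) (k - 4) := by
  classical
  have D (i) : ((starRingEnd ℂ) (L i (1, 0)) * L i (0, 1)).im ≠ 0 := fun e => by
    simpa [e] using sg i
  have inj (i) : Function.Injective (L i) := (injective_iff_map_eq_zero _).2 fun u h =>
    Prod.ext_iff.2 (jump_ind (D i) ((jump_L _ u).symm.trans h))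
  let P (i : Bool) (u : ℝ × ℝ) : ℂ := L i (jump_X (u.1 - t i, u.2 - θ₀))
  have cP (i) : Continuous (P i) := (L i).continuous.comp (jump_X_cont.comp (by fun_prop))
  have P0 (i u) : P i u = 0 ↔ u.2 = θ₀ ∧ ∃ j : ℤ, u.1 = t i + j := by
    simp only [P, map_eq_zero_iff _ (inj i), jump_X_zero, sub_eq_iff_eq_add', add_zero]
  have Pp (i s θ) (j : ℤ) : P i (s + j, θ) = P i (s, θ) := by
    simp only [P, add_sub_right_comm s, jump_X_per]
  have dP (i) : HasFDerivAt (P i) (L i) (t i, θ₀) := by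
    have x := jump_X_der
    rw [← sub_self (t i, θ₀)] at x
    exact ((L i).hasFDerivAt.comp _ (x.comp (f := fun u => u - (t i, θ₀)) (t i, θ₀)
      ((hasFDerivAt_id (t i, θ₀)).sub_const (t i, θ₀)))).congr_fderiv (by simp)
  have two (u) (h : P true u = 0) : P false u ≠ 0 := fun h' => by
    obtain ⟨-, j, e⟩ := (P0 _ _).1 h
    obtain ⟨-, j', e'⟩ := (P0 _ _).1 h'
    exact ht (j' - j) (by push_cast; linarith)
  have reg {u : ℝ × ℝ} (h : P true u ≠ 0) (h' : P false u ≠ 0) :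
      ¬(u.2 = θ₀ ∧ ∃ i, ∃ j : ℤ, u.1 = t i + j) := by
    rintro ⟨e, _ | _, j⟩
    exacts [h' ((P0 _ _).2 ⟨e, j⟩), h ((P0 _ _).2 ⟨e, j⟩)]
  let G (u : ℝ × ℝ) : ℂ := if P true u = 0 then (P false u ^ 2)⁻¹ else
    if P false u = 0 then (P true u ^ 2)⁻¹ else F u / (P true u * P false u) ^ 2
  have Gp (s θ) (j : ℤ) : G (s + j, θ) = G (s, θ) := by
    have : F (s + j, θ) = F (s, θ) := by
      simpa using (show Function.Periodic (fun s => F (s, θ)) 1 from fun s => per s θ).int_mul j s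
    simp only [G, Pp, this]
  have G0 (u : ℝ × ℝ) (hu : u.2 ∈ Icc a b) : G u ≠ 0 := by
    simp only [G]
    split_ifs with h h'
    · exact inv_ne_zero (pow_ne_zero _ (two u h))
    · exact inv_ne_zero (pow_ne_zero _ h)
    · exact div_ne_zero (ne u hu (reg h h')) (pow_ne_zero _ (mul_ne_zero h h'))
  have sing (i) : ContinuousAt G (t i, θ₀) := by
    have z' : P i (t i, θ₀) = 0 := (P0 _ _).2 ⟨rfl, 0, by simp⟩
    have o : P (!i) (t i, θ₀) ≠ 0 := by
      cases i
      exacts [fun h => two _ h z', two _ z']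
    obtain ⟨n, l⟩ := jump_lim (inj i) (d i) (dP i) (z i) z'
    have v : G (t i, θ₀) = 1 ^ 2 / P (!i) (t i, θ₀) ^ 2 := by
      cases i
      · simp only [G, z', if_neg (show ¬P true _ = 0 from o), if_true, one_pow, one_div, Bool.not_false]
      · simp only [G, z', if_true, one_pow, one_div, Bool.not_true]
    rw [continuousAt_iff_punctured_nhds, v]
    refine ((l.pow 2).div (((cP (!i)).continuousAt.pow 2).mono_left nhdsWithin_le_nhds)
      (pow_ne_zero _ o)).congr' ?_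
    filter_upwards [n, sq i, mem_nhdsWithin_of_mem_nhds ((cP (!i)).continuousAt.eventually_ne o)]
      with u h1 h2 h3
    cases i
    · simp only [G, if_neg h1, if_neg (show ¬P true u = 0 from h3), h2, Pi.div_apply,
        Pi.pow_apply, Bool.not_false]
      rw [div_pow, div_div, ← mul_pow, mul_comm]
    · simp only [G, if_neg h1, if_neg (show ¬P false u = 0 from h3), h2, Pi.div_apply,
        Pi.pow_apply, Bool.not_true]
      rw [div_pow, div_div, ← mul_pow]
  have cG : ContinuousOn G {u | u.2 ∈ Icc a b} := fun u hu => by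
    by_cases h : ∃ i, P i u = 0
    · obtain ⟨i, h⟩ := h
      obtain ⟨e, j, e'⟩ := (P0 _ _).1 h
      have : G = G ∘ fun v => (v.1 - j, v.2) := funext fun v => by
        rw [Function.comp_apply, ← Gp (v.1 - j) _ j, sub_add_cancel]
      rw [this]
      exact ((sing i).comp_of_eq (by fun_prop) (by rw [e, e', add_sub_cancel_right])).continuousWithinAt
    · push Not at h
      have n : ∀ᶠ v in 𝓝[{u | u.2 ∈ Icc a b}] u, P true v ≠ 0 ∧ P false v ≠ 0 :=
        mem_nhdsWithin_of_mem_nhds (((cP _).continuousAt.eventually_ne (h _)).and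
          ((cP _).continuousAt.eventually_ne (h _)))
      refine (((c u ⟨hu, reg (h _) (h _)⟩).mono_of_mem_nhdsWithin ?_).div
        (((cP true).mul (cP false)).pow 2).continuousWithinAt
        (pow_ne_zero _ (mul_ne_zero (h _) (h _)))).congr_of_eventuallyEq ?_ ?_
      · filter_upwards [n, self_mem_nhdsWithin] with v h1 h2 using ⟨h2, reg h1.1 h1.2⟩
      · filter_upwards [n] with v h1
        simp only [G, if_neg h1.1, if_neg h1.2, Pi.div_apply, Pi.mul_apply, Pi.pow_apply]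
      · simp only [G, if_neg (h _), Pi.div_apply, Pi.mul_apply, Pi.pow_apply]
  have line {θ : ℝ} (h : θ ≠ θ₀) (s : ℝ) :
      G (s, θ) = F (s, θ) / (P true (s, θ) * P false (s, θ)) ^ 2 := by
    have n (i) : ¬P i (s, θ) = 0 := fun e => h ((P0 _ _).1 e).1
    simp only [G, if_neg (n _)]
  have mem (l : ℝ) : a + (b - a) * (projIcc (0 : ℝ) 1 zero_le_one l : ℝ) ∈ Icc a b := by
    obtain ⟨h0, h1⟩ := (projIcc (0 : ℝ) 1 zero_le_one l).2
    constructor <;> nlinarith
  have go {m : ℤ} (h : Wn (fun s => G (s, a)) m) : Wn (fun s => G (s, b)) m := by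
    have := Wn.htpy (k := m)
      (H := fun q => G (q.2, a + (b - a) * (projIcc (0 : ℝ) 1 zero_le_one q.1 : ℝ)))
      (cG.comp_continuous (by fun_prop) fun q => mem q.1) (fun l _ s => G0 _ (mem l))
      (fun l _ s => by simpa using Gp s _ 1) (h.congr fun s => by simp)
    exact this.congr fun s => by simp
  have hi (i) : Wn (fun s => P i (s, b)) 0 :=
    (jump_hi (D i) (sub_pos.2 hb) (t i)).congr fun s => jump_L _ _
  have fin {η : ℤ} (lo : ∀ i, Wn (fun s => P i (s, a)) η) : Wn (fun s => F (s, b)) (k - 4 * η) := by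
    have := (go ((W.div (((lo true).mul (lo false)).pow 2)).congr (line ha.ne))).mul
      (((hi true).mul (hi false)).pow 2)
    rw [show k - (2 : ℕ) * (η + η) + (2 : ℕ) * (0 + 0) = k - 4 * η by push_cast; ring] at this
    exact this.congr fun s => by
      rw [line hb.ne', div_mul_cancel₀ _ (pow_ne_zero _ (mul_ne_zero ((hi _).ne s) ((hi _).ne s)))]
  rcases lt_trichotomy e 0 with h | h | h
  · exact .inl (by
      simpa using fin (η := -1) fun i => (jump_lo' (neg_of_mul_pos_right (sg i) h.le)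
        (sub_neg.2 ha) (t i)).congr fun s => jump_L _ _)
  · simpa [h] using sg true
  · exact .inr (by
      simpa using fin (η := 1) fun i => (jump_lo (pos_of_mul_pos_right (sg i) h.le)
        (sub_neg.2 ha) (t i)).congr fun s => jump_L _ _)

end Pool.Agent.Lib.MP_b2e238_gt
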