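import Pool.Agent.Lib.MP_b2e238_gt.S.Step
import Pool.Agent.Lib.MP_b2e238_gt.K.Par

/-! The winding number of the Seifert function in the first cell of the grid. -/

open scoped Topology ContDiff ComplexConjugate
open Set Complex Filter

noncomputable section

namespace Pool.Agent.Lib.MP_b2e238_gt

variable {n : ℕ}

/-- A family of loops that leaves the origin with the velocity `u`. -/
theorem small_wn {ζ : ℝ × ℝ → ℂ} {W : Set (ℝ × ℝ)} (o : IsOpen W) (c : ContDiffOn ℝ ∞ ζ W)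
    (m : ∀ s, (s, 0) ∈ W) (z : ∀ s, ζ (s, 0) = 0) (pW : ∀ s θ, (s + 1, θ) ∈ W ↔ (s, θ) ∈ W)
    (per : ∀ s θ, ζ (s + 1, θ) = ζ (s, θ)) (ne : ∀ s, fderiv ℝ ζ (s, 0) (0, 1) ≠ 0) :
    ∃ k : ℤ, Wn (fun s => fderiv ℝ ζ (s, 0) (0, 1)) k ∧ ∃ ε > 0, ∀ θ ∈ Ioo 0 ε,
      (∀ s, (s, θ) ∈ W) ∧ Wn (fun s => ζ (s, θ)) k := by
  let p : ℝ × ℝ → ℂ := fun v => fderiv ℝ ζ v (0, 1)
  have cp : ContinuousOn p W :=
    (c.continuousOn_fderiv_of_isOpen o (by simp)).clm_apply continuousOn_const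
  have d (v) (hv : v ∈ W) : HasDerivAt (fun θ => ζ (v.1, θ)) (p v) v.2 :=
    ((c.contDiffAt (o.mem_nhds hv)).differentiableAt (by simp)).hasFDerivAt.comp_hasDerivAt v.2
      (f := fun θ => (v.1, θ)) ((hasDerivAt_const _ _).prodMk (hasDerivAt_id _))
  have cu : Continuous fun s => p (s, 0) := cp.comp_continuous (by fun_prop) m
  have pu (s) : p (s + 1, 0) = p (s, 0) :=
    (d _ (m (s + 1))).unique (by simpa only [per] using d _ (m s))
  obtain ⟨k, hk⟩ := exists_wn cu ne pu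
  refine ⟨k, hk, ?_⟩
  have oO : IsOpen (W ∩ (fun v => (p v / p (v.1, 0)).re) ⁻¹' Ioi 0) :=
    (continuous_re.comp_continuousOn (cp.div (cu.comp continuous_fst).continuousOn
      fun v _ => ne _)).isOpen_inter_preimage o isOpen_Ioi
  obtain ⟨A, B, -, oB, hA, hB, AB⟩ := generalized_tube_lemma (isCompact_Icc (a := (0 : ℝ)) (b := 1))
    (isCompact_singleton (x := (0 : ℝ))) oO (by
      rintro ⟨s, θ⟩ ⟨-, h⟩
      obtain rfl : θ = 0 := h
      exact ⟨m s, by simp [p, div_self (ne s)]⟩)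
  obtain ⟨ε, e0, hε⟩ := Metric.isOpen_iff.1 oB 0 (hB rfl)
  have key (θ) (h : θ ∈ Ioo 0 ε) (s) : (s, θ) ∈ W ∧ 0 < (ζ (s, θ) / p (s, 0)).re := by
    rw [← Int.fract_add_floor s, per_int (c := fun s => (s, θ) ∈ W ∧ 0 < (ζ (s, θ) / p (s, 0)).re)
      fun t => by rw [pW, per, pu]]
    have a := hA (⟨Int.fract_nonneg s, (Int.fract_lt_one s).le⟩ : Int.fract s ∈ Icc (0 : ℝ) 1)
    generalize Int.fract s = t at a
    have b (x) (hx : x ∈ Icc 0 θ) := AB (mk_mem_prod a (hε (a := x) (by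
      rw [mem_ball_zero_iff, Real.norm_of_nonneg hx.1]
      exact hx.2.trans_lt h.2)))
    have g (x) (hx : x ∈ Icc 0 θ) : HasDerivAt (fun x => (ζ (t, x) / p (t, 0)).re)
        (p (t, x) / p (t, 0)).re x :=
      reCLM.hasFDerivAt.comp_hasDerivAt x ((d _ (b x hx).1).div_const _)
    refine ⟨(b θ (right_mem_Icc.2 h.1.le)).1, ?_⟩
    have := strictMonoOn_of_deriv_pos (convex_Icc 0 θ)
      (fun x hx => (g x hx).continuousAt.continuousWithinAt) (fun x hx => by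
        rw [(g x (interior_subset hx)).deriv]
        exact (b x (interior_subset hx)).2) (left_mem_Icc.2 h.1.le) (right_mem_Icc.2 h.1.le) h.1
    simpa [z] using this
  exact ⟨ε, e0, fun θ h => ⟨fun s => (key θ h s).1, hk.of_slit
    (c.continuousOn.comp_continuous (by fun_prop) fun s => (key θ h s).1) (fun s => per s θ)
    fun s => Or.inl (key θ h s).2⟩⟩

variable {ν : ℝ × ℂ → C3} {G Z : C3 → ℂ} {B : ℝ → ℂ →L[ℝ] ℂ} {a : ℝ → ℝ}

theorem small_act (n : ℕ) (x : C3) : act n 0 x = x := by simp [act, ex]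

theorem sd_small (D : SD n ν G) (T : TC n ν Z B a) : ∃ (u : ℝ → ℂ) (m : ℤ), Wn u m ∧
    (∀ t, (B t (u t)).re = 0 ∧ 0 < (B t (u t)).im) ∧
      Wn (fun s => G (act n ((1 / 2) / (12 * n)) (ν (s, 0)))) (2 * m) := by
  have hn : n ≠ 0 := D.odd.pos.ne'
  have n0 : (0 : ℝ) < 12 * n := by
    have : (0 : ℝ) < n := by exact_mod_cast D.odd.pos
    linarith
  let c : ℝ × ℝ → C3 := fun v => act n v.2 (ν (v.1, 0))
  have mb (v) : c v ∈ Bri n := step_bri _ (D.step_mem _)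
  have k : ContDiff ℝ ∞ fun s : ℝ => ν (s, 0) := contDiff_iff_contDiffAt.2 fun s =>
    ((D.tube.2 _).2.1.contDiffAt ((D.tube.2 _).1.mem_nhds (step_win s))).comp s
      (f := fun s : ℝ => (s, (0 : ℂ))) (by fun_prop)
  have cc : ContDiff ℝ ∞ c := by
    have x (p : ℝ) : ContDiff ℝ ∞ fun v : ℝ × ℝ => ex (p * v.2) := contDiff_ex.comp (by fun_prop)
    have y := k.comp (contDiff_fst (𝕜 := ℝ) (E := ℝ) (F := ℝ))
    exact ((x _).mul y.fst).prodMk (((x _).mul y.snd.fst).prodMk ((x _).mul y.snd.snd))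
  have o := par_pre cc.continuous.continuousOn isOpen_univ T.opn fun v _ => mb v
  rw [univ_inter] at o
  have c0 (s) : c (s, 0) = ν (s, 0) := small_act _ _
  have per (s θ) : c (s + 1, θ) = c (s, θ) := by simp only [c, D.tube.1]
  have hu (t) : (B t (fderiv ℝ (Z ∘ c) (t, 0) (0, 1))).re = 0 ∧
      0 < (B t (fderiv ℝ (Z ∘ c) (t, 0) (0, 1))).im := by
    have d := (cc.differentiable (by simp) (t, 0)).hasFDerivAt
    obtain ⟨L, hL, e⟩ := T.der t c _ (t, 0) d (.of_forall mb) (c0 t)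
    have l : HasDerivAt (fun s : ℝ => (t, s)) ((0 : ℝ), (1 : ℝ)) 0 :=
      (hasDerivAt_const _ t).prodMk (hasDerivAt_id _)
    have c2 : fderiv ℝ c (t, 0) (0, 1) = (2 * Real.pi * I : ℂ) • eul n (c (t, 0)) :=
      (HasFDerivAt.comp_hasDerivAt 0 (f := fun s : ℝ => (t, s)) d l).unique
        (step_der n (ν (t, 0)) 0)
    obtain ⟨ρ, ρ0, hρ⟩ := dot_star_pos (eul_ne hn (Bri_ne (mb (t, 0))))
    rw [hL.fderiv, e, c2, om_eul, hρ]
    simpa using mul_pos Real.two_pi_pos ρ0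
  obtain ⟨m, W, ε, e0, h⟩ := small_wn (ζ := Z ∘ c) o (T.cZ.comp cc.contDiffOn fun _ h => h)
    (fun s => ⟨(s, 0), ⟨trivial, Metric.mem_ball_self one_pos⟩, (c0 s).symm⟩)
    (fun s => by rw [Function.comp_apply, c0, T.inv s 0 (by simp)])
    (fun s θ => by simp only [mem_preimage, per]) (fun s θ => by simp only [Function.comp, per])
    fun s e => by simpa [e] using (hu s).2
  refine ⟨_, m, W, hu, ?_⟩
  have b0 : (0 : ℝ) < 1 / 2 / (12 * n) := by positivity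
  have t0 : 0 < min (ε / 2) (1 / 2 / (12 * n)) := lt_min (by linarith) b0
  obtain ⟨h1, h2⟩ := h _ ⟨t0, (min_le_left _ _).trans_lt (by linarith)⟩
  have nr (v : ℝ × ℝ) (hv : v.2 ∈ Icc (min (ε / 2) (1 / 2 / (12 * n))) (1 / 2 / (12 * n))) :
      star (c v) ≠ c v := fun r => by
    obtain ⟨i, e⟩ := cross_grid D.odd D.h3 (D.kp.lp.2.1 v.1) (D.kp.real v.1) r
    have p := t0.trans_le hv.1
    have q := hv.2
    rw [e, div_pos_iff_of_pos_right n0, Int.cast_pos] at p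
    rw [e, div_le_div_iff_of_pos_right n0] at q
    have : (1 : ℝ) ≤ i := by exact_mod_cast p
    linarith
  refine step_htpy (F := fun v => G (c v)) (min_le_right _ _)
    (D.cG.comp cc.continuous.continuousOn fun v hv => ⟨mb v, nr v hv⟩)
    (fun v hv => D.G0 _ (mb v) (nr v hv)) (fun s θ => by simp only [per])
    ((h2.pow 2).congr fun s => ?_)
  obtain ⟨⟨t, z⟩, ⟨-, hz⟩, e⟩ := h1 s
  have hz' : ‖z‖ < 1 := mem_ball_zero_iff.1 hz
  have := h2.ne s
  simp only [Function.comp_apply, ← e, T.inv t z hz'] at this ⊢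
  exact D.Gν t z this hz'

end Pool.Agent.Lib.MP_b2e238_gt
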