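import Pool.Agent.Lib.MP_b2e238_gt.P.Kp
import Pool.Agent.Lib.MP_b2e238_gt.K.Dif

/-! The half turn reverses the real circle. -/

open scoped Topology ContDiff
open Set Complex

noncomputable section

namespace Pool.Agent.Lib.MP_b2e238_gt

variable {n : ℕ}

theorem sym_inv {τ : ℝ → ℝ} (c : Continuous τ) (b : Function.Bijective τ) :
    ∃ σ : ℝ → ℝ, Continuous σ ∧ ∀ t, τ (σ t) = t := by
  rcases c.strictMono_of_inj b.1 with h | h
  · exact ⟨_, (h.orderIsoOfSurjective τ b.2).symm.continuous,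
      (h.orderIsoOfSurjective τ b.2).apply_symm_apply⟩
  · have k := h.comp (f := Neg.neg) fun _ _ => neg_lt_neg
    have s := b.2.comp (neg_surjective (G := ℝ))
    exact ⟨_, (k.orderIsoOfSurjective _ s).symm.continuous.neg,
      (k.orderIsoOfSurjective _ s).apply_symm_apply⟩

theorem sym_star (t : ℝ) : star (ex t) = ex (-t) := by
  simp [ex, ← exp_conj, map_ofNat]

theorem sym_pow (t : ℝ) (j : ℕ) : ex t ^ j = ex (j * t) := by
  rw [ex, ex, ← exp_nat_mul]
  congr 1
  push_cast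
  ring

theorem sym_bri (θ : ℝ) {a : ℂ × ℂ × ℂ} (h : a ∈ Bri n) : act n θ a ∈ Bri n := by
  refine ⟨?_, by simpa only [act, norm_mul, norm_ex, one_mul] using h.2⟩
  simp only [act, mul_pow, sym_pow]
  rw [show ((2 : ℕ) : ℝ) * (3 * n * θ) = n * (6 * θ) by push_cast; ring,
    show ((3 : ℕ) : ℝ) * (2 * n * θ) = n * (6 * θ) by push_cast; ring, ← mul_add, ← mul_add, h.1,
    mul_zero]

theorem sym_half (hn : Odd n) (a : ℂ × ℂ × ℂ) : act n (1 / 2) a = (-a.1, a.2.1, a.2.2) := by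
  obtain ⟨j, rfl⟩ := hn
  have h : ex (1 / 2) = -1 := by
    rw [ex, ← exp_pi_mul_I]
    congr 1
    push_cast
    ring
  rw [act, show (3 * (2 * j + 1 : ℕ) * (1 / 2) : ℝ) = (3 * j + 1 : ℤ) + 1 / 2 by push_cast; ring,
    show (2 * (2 * j + 1 : ℕ) * (1 / 2) : ℝ) = (2 * j + 1 : ℤ) by push_cast; ring,
    show (6 * (1 / 2) : ℝ) = (3 : ℤ) by norm_num, ex_add, ex_int, ex_int, ex_int, h]
  simp

theorem sym_act (θ : ℝ) {a b : ℂ × ℂ × ℂ} (r : star b = b) (e : act n (1 / 2) a = b) :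
    act n (1 / 2 - θ) a = star (act n θ b) := by
  have : star (act n θ b) = act n (-θ) (star b) := by
    simp only [act, Prod.star_def, star_mul', sym_star, mul_neg]
  rw [this, r, ← e]
  simp only [act, ← mul_assoc, ← ex_add]
  congr 3 <;> ring_nf

theorem wn_sym (hn : Odd n) {k : ℝ → ℂ × ℂ × ℂ} (K : KP n k) (kB : ∀ t, k t ∈ Bri n)
    {G : ℂ × ℂ × ℂ → ℂ} (Gs : ∀ a ∈ Bri n, G (star a) = G a) {θ : ℝ} {m : ℤ}
    (W : Wn (fun s => G (act n θ (k s))) m) : Wn (fun s => G (act n (1 / 2 - θ) (k s))) (-m) := by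
  obtain ⟨τ, e, he, c, b, p, h⟩ := kpar hn K
  obtain ⟨σ, cσ, i⟩ := sym_inv c b
  have q (s : ℝ) : act n (1 / 2) (k (τ s)) = k (τ (-s)) := by
    obtain ⟨R, R0, u⟩ := h s
    obtain ⟨R', R0', u'⟩ := h (-s)
    have B := sym_bri (1 / 2) (kB (τ s))
    have r := K.real (τ s)
    have v : pA n (act n (1 / 2) (k (τ s))) = star (pA n (k (τ s))) := by
      rw [sym_half hn]
      conv_lhs => rw [← r]
      simp [pA]
    obtain ⟨t, ht⟩ := pA_ray hn (K.lp.2.1 (τ (-s))) (a' := act n (1 / 2) (k (τ s)))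
      ⟨B.1, fun z => by have := B.2; rw [z] at this; simp at this⟩ (K.real _)
      (by rw [sym_half hn]; conv_rhs => rw [← r]
          simp [Prod.star_def]) (div_pos R0 R0') (by
        have := ofReal_ne_zero.2 R0'.ne'
        rw [v, u, u', star_mul', sym_star, ofReal_div, ← mul_assoc, div_mul_cancel₀ _ this]
        simp)
    rw [← toB_self hn.pos.ne' B.2, ht, toB_scl hn.pos.ne' _ (K.lp.2.1 _).2,
      toB_self hn.pos.ne' (kB _).2]
  obtain ⟨L, cL, eL, pL⟩ := W
  refine ⟨fun t => L (τ (-σ t)), cL.comp (c.comp cσ.neg), fun t => ?_, fun t => ?_⟩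
  · have := q (σ t)
    rw [i] at this
    exact (eL _).trans ((Gs _ (sym_bri θ (kB _))).symm.trans
      (congrArg G (sym_act θ (K.real _) this).symm))
  · have : τ (-σ t) = τ (-σ (t + 1)) + 1 := by
      rcases he with rfl | rfl
      · rw [show σ (t + 1) = σ t + 1 from b.1 (by rw [p, i, i, Int.cast_one]), ← Int.cast_one (R := ℝ),
          ← p, Int.cast_one, neg_add, neg_add_cancel_right]
      · rw [show σ t = σ (t + 1) + 1 from b.1 (by rw [p, i, i]; simp), ← sub_add_cancel (-σ (t + 1)) 1,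
          p, ← neg_add']
        simp
    simp only [this, pL]
    push_cast
    ring

end Pool.Agent.Lib.MP_b2e238_gt
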