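import Pool.Agent.Lib.MP_b2e238_gt.S.Defs
import Pool.Agent.Lib.MP_b2e238_gt.K.Par
import Pool.Agent.Lib.MP_b2e238_gt.B.Lev

/-! The normal coordinate of a tube round the real circle. -/

open scoped Topology ContDiff
open Set Complex Filter

noncomputable section

namespace Pool.Agent.Lib.MP_b2e238_gt

variable {n : ℕ} {ν : ℝ × ℂ → C3}

theorem act_eq (n : ℕ) (θ : ℝ) (x : C3) : act n θ x = hY n (ex θ) x := by
  have e (k : ℕ) : ex (k * θ) = ex θ ^ k := by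
    rw [ex, ex, ← Complex.exp_nat_mul]
    congr 1
    push_cast
    ring
  simpa [act, hY] using ⟨.inl (by simpa using e (3 * n)), .inl (by simpa using e (2 * n)),
    .inl (by simpa using e 6)⟩

theorem tube_win (t : ℝ) {z : ℂ} (h : ‖z‖ < 2) :
    (t, z) ∈ Ioo (t - 1 / 2) (t - 1 / 2 + 1) ×ˢ Metric.ball (0 : ℂ) 2 :=
  ⟨⟨by linarith, by linarith⟩, mem_ball_zero_iff.2 h⟩

theorem tube_inj {A : Set C3} (hν : Tube A ν 2) {t t' : ℝ} {z z' : ℂ} (h : ‖z‖ < 2) (h' : ‖z'‖ < 2)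
    (e : ν (t, z) = ν (t', z')) : z = z' := by
  have p : Function.Periodic (fun t => ν (t, z')) 1 := fun t => hν.1 t z'
  have q := p.sub_int_mul_eq (x := t') ⌊t' - t⌋
  have a := Int.floor_le (t' - t)
  have b := Int.lt_floor_add_one (t' - t)
  generalize (⌊t' - t⌋ : ℝ) = k at q a b
  exact congrArg Prod.snd (@(hν.2 ((t + (t' - k) - 1) / 2)).2.2.1 (t, z) ⟨⟨by linarith, by linarith⟩, mem_ball_zero_iff.2 h⟩
    (t' - k * 1, z') ⟨⟨by linarith, by linarith⟩, mem_ball_zero_iff.2 h'⟩ (e.trans q.symm))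

theorem exists_tc (hn : n ≠ 0) (hν : Tube (Bri n) ν 2)
    (hs : ∀ t z, ‖z‖ < 2 → star (ν (t, z)) = ν (t, -z)) : ∃ Z B a, TC n ν Z B a := by
  classical
  let Z (a : C3) : ℂ := if h : ∃ u : ℝ × ℂ, ‖u.2‖ < 2 ∧ ν u = a then h.choose.2 else 0
  have z1 (t z) (h : ‖z‖ < 2) : Z (ν (t, z)) = z := by
    have k : ∃ u : ℝ × ℂ, ‖u.2‖ < 2 ∧ ν u = ν (t, z) := ⟨_, h, rfl⟩
    exact (dif_pos k).trans (tube_inj hν k.choose_spec.1 h k.choose_spec.2)
  choose ψ hψ using fun s => (hν.2 s).dif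
  have z2 (s) : EqOn Z (fun a => (ψ s a).2) (ν '' (Ioo s (s + 1) ×ˢ Metric.ball 0 2)) := by
    rintro _ ⟨u, hu, rfl⟩
    beta_reduce
    rw [(hψ s).gf u hu]
    exact z1 _ _ (mem_ball_zero_iff.1 hu.2)
  have w0 (t : ℝ) := tube_win t (z := 0) (by simp)
  have c0 (t : ℝ) : ContDiffAt ℝ ∞ ν (t, 0) :=
    (hν.2 _).2.1.contDiffAt ((hν.2 _).1.mem_nhds (w0 t))
  have d0 (t : ℝ) : HasFDerivAt ν (fderiv ℝ ν (t, 0)) (t, 0) :=
    ((c0 t).differentiableAt (by simp)).hasFDerivAt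
  let D (t : ℝ) : ℝ × ℂ →L[ℝ] E3 := om n (ν (t, 0)) ∘L fderiv ℝ ν (t, 0)
  have l (t : ℝ) : ContinuousAt (fun t : ℝ => (t, (0 : ℂ))) t := by fun_prop
  have cD : Continuous D := continuous_iff_continuousAt.2 fun t =>
    ((contDiff_om n).continuous.continuousAt.comp ((c0 t).continuousAt.comp_of_eq (l t) rfl)).clm_comp
      (((c0 t).continuousAt_fderiv (by simp)).comp_of_eq (l t) rfl)
  have pD (t) : D (t + 1) = D t := by
    have e : (fun x : ℝ × ℂ => ν (x + (1, 0))) = ν := funext fun x => by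
      simpa [Prod.add_def] using hν.1 x.1 x.2
    have := fderiv_comp_add_right (𝕜 := ℝ) (f := ν) (x := (t, 0)) (1, 0)
    rw [e, Prod.mk_add_mk, add_zero] at this
    simp only [D, hν.1, this]
  have iD (t v) (e : D t v = 0) : v = 0 :=
    ((hν.2 _).2.2.2.2 _ (w0 t)).1 (((cf_bri hn).2 _ ((hν.2 _).2.2.2.1 (w0 t)) _
      (((hν.2 _).tan (w0 t)).ge ⟨v, rfl⟩) e).trans (map_zero _).symm)
  have sD (t s z) : D t (s, -z) = (star (D t (s, z)).1, -(D t (s, z)).2) := by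
    let σ : ℝ × ℂ →L[ℝ] ℝ × ℂ := (ContinuousLinearMap.id ℝ ℝ).prodMap (-ContinuousLinearMap.id ℝ ℂ)
    have a := (starL' ℝ (A := C3)).hasFDerivAt.comp _ (d0 t)
    have b : HasFDerivAt (ν ∘ σ) (fderiv ℝ ν (t, 0) ∘L σ) (t, 0) :=
      HasFDerivAt.comp _ (by simpa [σ] using d0 t) σ.hasFDerivAt
    have c := congrArg (· (s, z)) (a.unique (b.congr_of_eventuallyEq (mem_of_superset
      ((hν.2 _).1.mem_nhds (w0 t)) fun u hu => hs u.1 u.2 (mem_ball_zero_iff.1 hu.2))))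
    have d := om_star n (ν (t, 0)) (fderiv ℝ ν (t, 0) (s, z))
    rw [hs t 0 (by simp), neg_zero] at d
    exact (congrArg _ c.symm).trans d
  let K : E3 →L[ℝ] ℂ := ofRealCLM ∘L imCLM ∘L .fst ℝ ℂ ℝ + I • ofRealCLM ∘L .snd ℝ ℂ ℝ
  let B (t : ℝ) : ℂ →L[ℝ] ℂ := K ∘L D t ∘L .inr ℝ ℝ ℂ
  have blk (t s : ℝ) (z : ℂ) :
      D t (s, z) = (((D t (1, 0)).1.re * s : ℝ) + I * (B t z).re, (B t z).im) := by
    have a := sD t 1 0
    have b := sD t 0 z
    rw [neg_zero] at a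
    rw [show ((0 : ℝ), -z) = -(0, z) by simp, map_neg] at b
    have a1 := congrArg (·.1.im) a
    have a2 := congrArg (·.2) a
    have b1 := congrArg (·.1.re) b
    rw [show (s, z) = s • ((1 : ℝ), (0 : ℂ)) + (0, z) by simp, map_add, map_smul]
    simp only [B, K, ContinuousLinearMap.comp_apply, ContinuousLinearMap.inr_apply] at a1 a2 b1 ⊢
    generalize D t (1, 0) = p, D t (0, z) = q at a1 a2 b1 ⊢
    simp at a1 a2 b1
    refine Prod.ext (Complex.ext ?_ ?_) ?_ <;> simp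
    · linarith
    · exact .inr (by linarith)
    · exact .inr (by linarith)
  refine ⟨Z, B, fun t => (D t (1, 0)).1.re, ⟨?_, ?_⟩, ?_, fun t z h => z1 t z (by linarith),
    continuous_const.clm_comp (cD.clm_comp continuous_const),
    continuous_re.comp (cD.clm_apply continuous_const).fst, fun t => by simp only [B, pD],
    fun t => by simp only [pD], fun t => (injective_iff_map_eq_zero _).2 fun z e => ?_,
    fun t e => ?_, blk, fun t c c' u h1 h2 h3 => ?_⟩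
  · rintro _ ⟨u, hu, rfl⟩
    exact (hν.2 _).2.2.2.1 (tube_win u.1 ((mem_ball_zero_iff.1 hu.2).trans one_lt_two))
  · rintro _ ⟨u, hu, rfl⟩
    exact ((hν.2 _).2.2.2.2 _ (tube_win u.1 ((mem_ball_zero_iff.1 hu.2).trans one_lt_two))).2 _
      ((isOpen_univ.prod Metric.isOpen_ball).mem_nhds hu)
  · rintro _ ⟨u, hu, rfl⟩
    have k := tube_win u.1 ((mem_ball_zero_iff.1 hu.2).trans one_lt_two)
    refine (((hψ _).cG.snd.congr (z2 _)) _ ⟨u, k, rfl⟩).mono_of_mem_nhdsWithin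
      (nhdsWithin_mono _ ?_ ((hν.2 _).opn.2 _ ⟨u, k, rfl⟩))
    rintro _ ⟨v, hv, rfl⟩
    exact (hν.2 _).2.2.2.1 (tube_win v.1 ((mem_ball_zero_iff.1 hv.2).trans one_lt_two))
  · exact congrArg Prod.snd (iD t (0, z) (by rw [blk, e]; simp))
  · exact one_ne_zero (congrArg Prod.fst (iD t (1, 0) (by rw [blk, e]; simp)))
  · have m : c u ∈ ν '' _ := ⟨_, w0 t, h3.symm⟩
    have ev : ∀ᶠ v in 𝓝 u, c v ∈ ν '' _ :=
      (tendsto_nhdsWithin_iff.2 ⟨h1.continuousAt, h2⟩).eventually ((hν.2 _).opn.2 _ m)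
    have a := (((hψ _).cG _ m).differentiableWithinAt (by simp)).hasFDerivWithinAt.comp_hasFDerivAt
      u h1 ev
    obtain ⟨M, a⟩ : ∃ M, HasFDerivAt (ψ _ ∘ c) M u := ⟨_, a⟩
    have b : HasFDerivAt (ν ∘ ψ _ ∘ c) (fderiv ℝ ν (t, 0) ∘L M) u := HasFDerivAt.comp u (by
      rw [Function.comp_apply, h3, (hψ _).gf _ (w0 t)]
      exact d0 t) a
    have e := h1.unique (b.congr_of_eventuallyEq (ev.mono fun v k => ((hψ _).fg _ k).symm))
    refine ⟨_, a.snd.congr_of_eventuallyEq (ev.mono fun v k => z2 _ k), fun v => ?_⟩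
    have f : om n (c u) (c' v) = D t ((M v).1, (M v).2) := by rw [h3, e]; rfl
    rw [f, blk]
    exact Complex.ext (by simp) (by simp)

end Pool.Agent.Lib.MP_b2e238_gt
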