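import Pool.Agent.Lib.MP_b2e238_gt.S.Step
import Pool.Agent.Lib.MP_b2e238_gt.S.Small
import Pool.Agent.Lib.MP_b2e238_gt.S.Sym
import Pool.Agent.Lib.MP_b2e238_gt.S.Blk
import Pool.Agent.Lib.MP_b2e238_gt.S.Tube
import Pool.Agent.Lib.MP_b2e238_gt.S.Fix

/-! The parity of the Seifert framing of the real circle. -/

open scoped Topology ContDiff
open Set Complex

noncomputable section

namespace Pool.Agent.Lib.MP_b2e238_gt

variable {n : ℕ} {ν : ℝ × ℂ → C3} {G Z : C3 → ℂ} {B : ℝ → ℂ →L[ℝ] ℂ} {a : ℝ → ℝ}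

theorem sdm_neg {u : ℝ → ℂ} {m : ℤ} (W : Wn u m) : Wn (fun t => u (-t)) (-m) := by
  obtain ⟨L, c, e, p⟩ := W
  refine ⟨fun t => L (-t), c.comp continuous_neg, fun t => e _, fun t => ?_⟩
  have := p (-(t + 1))
  rw [show -(t + 1) + 1 = -t by ring] at this
  simp only [this]
  push_cast
  ring

theorem sdm_odd (D : SD n ν G) (T : TC n ν Z B a) {m : ℤ}
    (W : Wn (fun s => G (act n ((1 / 2) / (12 * n)) (ν (s, 0)))) (2 * m)) : Odd m := by
  have hn : 0 < n := D.odd.pos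
  have hn' : (0 : ℝ) < n := by exact_mod_cast hn
  have key : ∀ j : ℕ, j < 3 * n → ∃ m' : ℤ,
      Wn (fun s => G (act n ((j + 1 / 2) / (12 * n)) (ν (s, 0)))) m' ∧ 4 ∣ m' - 2 * m := by
    intro j
    induction j with
    | zero => exact fun _ => ⟨2 * m, by simpa using W, by simp⟩
    | succ j ih =>
      intro hj
      obtain ⟨m₁, W₁, d₁⟩ := ih (by omega)
      obtain ⟨m₂, W₂, d₂⟩ := sd_step D T (j := j + 1) (by omega) (by omega) (m := m₁)
        (by rw [show (((j + 1 : ℕ) : ℝ) - 1 / 2) = j + 1 / 2 by push_cast; ring]; exact W₁)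
      exact ⟨m₂, W₂, by omega⟩
  obtain ⟨m₁, W₁, d₁⟩ := key (3 * n - 1) (by omega)
  have e : (((3 * n - 1 : ℕ) : ℝ) + 1 / 2) = ((3 * n : ℕ) : ℝ) - 1 / 2 := by
    rw [Nat.cast_sub (by omega)]; push_cast; ring
  rw [e] at W₁
  obtain ⟨m₂, W₂, d₂⟩ := sd_step D T (j := 3 * n) (by omega) (by omega) W₁
  have kB : ∀ t : ℝ, ν (t, 0) ∈ Bri n := fun t => (D.tube.2 (t - 1 / 2)).2.2.2.1
    (mk_mem_prod (by constructor <;> linarith) (Metric.mem_ball_self two_pos))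
  have W₃ := wn_sym D.odd D.kp kB D.Gs W₁
  rw [show (1 / 2 - (((3 * n : ℕ) : ℝ) - 1 / 2) / (12 * n)) =
    (((3 * n : ℕ) : ℝ) + 1 / 2) / (12 * n) by push_cast; field_simp; ring] at W₃
  have := W₂.unique W₃
  rw [Int.odd_iff]
  omega

/-- The Seifert framing of the real circle makes an odd number of turns against the coframe. -/
theorem seifert (D : SD n ν G) : ∃ L : E3 ≃L[ℝ] E3, Hl (Inj E3)
    (fun t => (om n (ν (-t, 0)) ∘L fderiv ℝ (fun x : E3 => ν (x.2 - t, x.1)) 0) ∘L (L : E3 →L[ℝ] E3))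
    fun t => mu (ex t) := by
  obtain ⟨Z, B, a, T⟩ := exists_tc D.odd.pos.ne' D.tube D.st
  obtain ⟨u, m, Wu, hu, W⟩ := sd_small D T
  have per : ∀ {X : Type} (f : ℝ → X), (∀ t, f (t + 1) = f t) → ∀ t, f (-(t + 1)) = f (-t) :=
    fun f h t => by rw [← h, show -(t + 1) + 1 = -t by ring]
  refine blk (B := fun t => B (-t)) (a := fun t => a (-t)) (T.cB.comp continuous_neg)
    (T.ca.comp continuous_neg) (per B T.pB) (per a T.pa) (fun t => T.iB _) (fun t => T.na _)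
    (fun t z s => ?_) (sdm_neg Wu) (sdm_odd D T W).neg fun t => hu _
  have P := D.tube.2 (-t - 1 / 2)
  have m0 : ((-t, 0) : ℝ × ℂ) ∈ Ioo (-t - 1 / 2) (-t - 1 / 2 + 1) ×ˢ Metric.ball (0 : ℂ) 2 :=
    mk_mem_prod (by constructor <;> linarith) (Metric.mem_ball_self two_pos)
  have d : DifferentiableAt ℝ ν (-t, 0) :=
    (P.2.1.contDiffAt (P.1.mem_nhds m0)).differentiableAt (by simp)
  have d1 : HasFDerivAt (fun x : E3 => ((x.2 - t, x.1) : ℝ × ℂ))
      ((ContinuousLinearMap.snd ℝ ℂ ℝ).prod (ContinuousLinearMap.fst ℝ ℂ ℝ)) 0 :=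
    (hasFDerivAt_snd.sub_const t).prodMk hasFDerivAt_fst
  have d2 : HasFDerivAt (fun x : E3 => ν (x.2 - t, x.1)) (fderiv ℝ ν (-t, 0) ∘L
      (ContinuousLinearMap.snd ℝ ℂ ℝ).prod (ContinuousLinearMap.fst ℝ ℂ ℝ)) 0 :=
    HasFDerivAt.comp (0 : E3) (g := ν) (by simpa using d.hasFDerivAt) d1
  rw [d2.fderiv]
  simpa using T.blk (-t) s z

end Pool.Agent.Lib.MP_b2e238_gt
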