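import Pool.Agent.Lib.MP_b2e238_gt.S.Defs
import Pool.Agent.Lib.MP_b2e238_gt.S.Jump
import Pool.Agent.Lib.MP_b2e238_gt.S.Cross
import Pool.Agent.Lib.MP_b2e238_gt.B.Lev

/-! The winding number of the Seifert function across one point of the grid. -/

open scoped Topology ContDiff
open Set Complex

noncomputable section

namespace Pool.Agent.Lib.MP_b2e238_gt

variable {n : ℕ}

theorem step_zpow (p : ℤ) (θ : ℝ) : ex (p * θ) = ex θ ^ p := by
  rw [ex, ex, ← exp_int_mul]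
  congr 1
  push_cast
  ring

theorem step_act (n : ℕ) (θ : ℝ) (x : C3) : act n θ x = hY n (ex θ) x := by
  have k : ∀ p : ℕ, ex (p * θ) = ex θ ^ p := fun p => by simpa using step_zpow p θ
  rw [act, hY, ← k, ← k, ← k]
  push_cast
  rfl

theorem step_bri (θ : ℝ) {x : C3} (m : x ∈ Bri n) : act n θ x ∈ Bri n := by
  refine ⟨?_, by simpa only [act, norm_mul, norm_ex, one_mul] using m.2⟩
  have e := m.1
  rw [step_act, hY]
  dsimp only
  linear_combination ex θ ^ (6 * n) * e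

theorem step_der (n : ℕ) (x : C3) (θ : ℝ) : HasDerivAt (fun s => act n s x)
    ((2 * Real.pi * I : ℂ) • eul n (act n θ x)) θ := by
  have k : ∀ (p : ℝ) (y : ℂ), HasDerivAt (fun s => ex (p * s) * y)
      (2 * Real.pi * I * (p * (ex (p * θ) * y))) θ := fun p y =>
    (((hasDerivAt_ex (p * θ)).scomp θ ((hasDerivAt_id θ).const_mul p)).mul_const y).congr_deriv
      (by simp only [mul_one, real_smul]; ring)
  refine ((k _ _).prodMk ((k _ _).prodMk (k _ _))).congr_deriv ?_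
  simp only [eul, act, Prod.smul_mk, smul_eq_mul]
  push_cast
  rfl

theorem step_lin (n : ℕ) (θ : ℝ) {k : ℝ → C3} {w : C3} {t : ℝ} (h : HasDerivAt k w t) :
    HasDerivAt (fun s => act n θ (k s)) (act n θ w) t := by
  have h1 : HasDerivAt (fun s => (k s).1) w.1 t := (h.hasFDerivAt.fst.hasDerivAt).congr_deriv (by simp)
  have h' : HasDerivAt (fun s => (k s).2) w.2 t := (h.hasFDerivAt.snd.hasDerivAt).congr_deriv (by simp)
  have h2 : HasDerivAt (fun s => (k s).2.1) w.2.1 t :=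
    (h'.hasFDerivAt.fst.hasDerivAt).congr_deriv (by simp)
  have h3 : HasDerivAt (fun s => (k s).2.2) w.2.2 t :=
    (h'.hasFDerivAt.snd.hasDerivAt).congr_deriv (by simp)
  exact (h1.const_mul _).prodMk ((h2.const_mul _).prodMk (h3.const_mul _))

theorem step_diff (n : ℕ) {k : ℝ × ℝ → C3} {u : ℝ × ℝ} (h : DifferentiableAt ℝ k u) :
    DifferentiableAt ℝ (fun v : ℝ × ℝ => act n v.2 (k v)) u := by
  have x : ∀ p : ℝ, DifferentiableAt ℝ (fun v : ℝ × ℝ => ex (p * v.2)) u := fun p =>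
    ((contDiff_ex.differentiable (by simp)).comp (by fun_prop) :
      Differentiable ℝ (ex ∘ fun v : ℝ × ℝ => p * v.2)) u
  exact ((x _).mul h.fst).prodMk (((x _).mul h.snd.fst).prodMk ((x _).mul h.snd.snd))

theorem step_cont (n : ℕ) {k : ℝ → C3} (h : Continuous k) :
    Continuous fun v : ℝ × ℝ => act n v.2 (k v.1) := by
  have x := contDiff_ex.continuous
  unfold act
  fun_prop

theorem step_sign {f : ℝ → ℝ} (c : Continuous f) (h : ∀ t, f t ≠ 0) (t : ℝ) : 0 < f 0 * f t := by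
  by_contra k
  obtain ⟨s, e⟩ := intermediate_value_univ t 0 (f := fun s => f 0 * f s) (by fun_prop)
    (⟨not_lt.1 k, mul_self_nonneg _⟩ : (0 : ℝ) ∈ Icc _ _)
  exact mul_ne_zero (h 0) (h s) e

theorem step_B (B : ℂ →L[ℝ] ℂ) (z : ℂ) : B z = z.re * B 1 + z.im * B I := by
  conv_lhs => rw [show z = z.re • (1 : ℂ) + z.im • I by simp]
  rw [map_add, map_smul, map_smul, real_smul, real_smul]

theorem step_det (B : ℂ →L[ℝ] ℂ) (p q : ℂ) : ((starRingEnd ℂ) (B p) * B q).im =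
    ((starRingEnd ℂ) (B 1) * B I).im * ((starRingEnd ℂ) p * q).im := by
  rw [step_B B p, step_B B q]
  simp
  ring

theorem step_det_ne {B : ℂ →L[ℝ] ℂ} (h : Function.Injective B) :
    ((starRingEnd ℂ) (B 1) * B I).im ≠ 0 := fun e => by
  have e' : (B 1).re * (B I).im - (B 1).im * (B I).re = 0 := by
    rw [← e]
    simp
    ring
  have k : ∀ z, B z = 0 → z = 0 := fun z hz => h (hz.trans (map_zero B).symm)
  have k1 := k ⟨(B I).re, -(B 1).re⟩ (by
    rw [step_B]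
    refine Complex.ext ?_ ?_ <;> simp <;> linarith)
  have k2 := k ⟨(B I).im, -(B 1).im⟩ (by
    rw [step_B]
    refine Complex.ext ?_ ?_ <;> simp <;> linarith)
  exact one_ne_zero (k 1 (Complex.ext (neg_eq_zero.1 (congrArg im k1))
    (neg_eq_zero.1 (congrArg im k2))))

theorem step_disc (x y : ℝ) : ∀ᶠ s in 𝓝 x, ∀ j : ℤ, s = y + j → s = x := by
  have a := Int.ceil_lt_add_one (x - y)
  have b := Int.lt_floor_add_one (x - y)
  filter_upwards [Ioo_mem_nhds (show y + (⌈x - y⌉ - 1) < x by linarith)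
    (show x < y + (⌊x - y⌋ + 1) by linarith)] with s hs j e
  have c : ⌈x - y⌉ - 1 < j := by
    have : ((⌈x - y⌉ : ℤ) : ℝ) - 1 < j := by linarith [hs.1]
    exact_mod_cast this
  have d : j < ⌊x - y⌋ + 1 := by
    have : (j : ℝ) < ((⌊x - y⌋ : ℤ) : ℝ) + 1 := by linarith [hs.2]
    exact_mod_cast this
  have c' : x - y ≤ j := Int.ceil_le.1 (by omega)
  have d' : (j : ℝ) ≤ x - y := Int.le_floor.1 (by omega)
  linarith

theorem step_htpy {F : ℝ × ℝ → ℂ} {a b : ℝ} (h : a ≤ b) (c : ContinuousOn F {u | u.2 ∈ Icc a b})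
    (ne : ∀ u : ℝ × ℝ, u.2 ∈ Icc a b → F u ≠ 0) (per : ∀ s θ, F (s + 1, θ) = F (s, θ)) {k : ℤ}
    (W : Wn (fun s => F (s, a)) k) : Wn (fun s => F (s, b)) k := by
  have m : ∀ l : ℝ, ((projIcc a b h (a + l * (b - a)) : Icc a b) : ℝ) ∈ Icc a b := fun l =>
    (projIcc a b h _).2
  have x := Wn.htpy (H := fun q : ℝ × ℝ => F (q.2, (projIcc a b h (a + q.1 * (b - a)) : ℝ)))
    (c.comp_continuous (continuous_snd.prodMk (continuous_subtype_val.comp
      (continuous_projIcc.comp (by fun_prop)))) fun q => m q.1)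
    (fun l _ t => ne _ (m l)) (fun l _ t => per _ _) (k := k) (by simpa using W)
  simpa using x

variable {ν : ℝ × ℂ → C3} {G Z : C3 → ℂ} {B : ℝ → ℂ →L[ℝ] ℂ} {a : ℝ → ℝ}

theorem step_win (t : ℝ) : ((t, 0) : ℝ × ℂ) ∈ Ioo (t - 1 / 2) (t - 1 / 2 + 1) ×ˢ Metric.ball 0 2 :=
  ⟨⟨by linarith, by linarith⟩, Metric.mem_ball_self two_pos⟩

theorem SD.step_mem (D : SD n ν G) (t : ℝ) : ν (t, 0) ∈ Bri n :=
  (D.tube.2 _).2.2.2.1 (step_win t)

theorem SD.step_dif (D : SD n ν G) (t : ℝ) : DifferentiableAt ℝ ν (t, 0) :=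
  ((D.tube.2 _).2.1.contDiffAt ((D.tube.2 _).1.mem_nhds (step_win t))).differentiableAt (by simp)

theorem SD.step_real (D : SD n ν G) {x : C3} (m : x ∈ Bri n) (r : star x = x) :
    ∃ t, x = ν (t, 0) := by
  have hn : n ≠ 0 := D.odd.pos.ne'
  obtain ⟨t, s, e⟩ := D.kp.surj x ⟨m.1, Bri_ne m⟩ r
  refine ⟨t, ?_⟩
  rw [← toB_self hn (D.step_mem t).2, e, toB_scl hn s (Bri_ne m), toB_self hn m.2]

/-- The normal coordinate along the flow at a crossing. -/
theorem step_loc (D : SD n ν G) (T : TC n ν Z B a) {t θ : ℝ}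
    (r : star (act n θ (ν (t, 0))) = act n θ (ν (t, 0))) (σ : (ex ((6 - n) * θ)).im ≠ 0) :
    (∃ L : ℝ × ℝ →L[ℝ] ℂ, HasFDerivAt (fun u : ℝ × ℝ => Z (act n u.2 (ν (u.1, 0)))) L (t, θ) ∧
      0 < a 0 * (ex ((6 - n) * θ)).im * ((starRingEnd ℂ) (B 0 1) * B 0 I).im *
        ((starRingEnd ℂ) (L (1, 0)) * L (0, 1)).im) ∧ Z (act n θ (ν (t, 0))) = 0 ∧
      ∀ᶠ u : ℝ × ℝ in 𝓝 (t, θ), act n u.2 (ν (u.1, 0)) ∈ ν '' (univ ×ˢ Metric.ball 0 1) := by
  have hn : n ≠ 0 := D.odd.pos.ne'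
  have mb : ∀ u : ℝ × ℝ, act n u.2 (ν (u.1, 0)) ∈ Bri n := fun u => step_bri _ (D.step_mem _)
  obtain ⟨t', e⟩ := D.step_real (mb (t, θ)) r
  refine ⟨?_, by rw [e]; exact T.inv t' 0 (by simp), ?_⟩
  · obtain ⟨c', d⟩ := step_diff n (k := fun v : ℝ × ℝ => ν (v.1, 0)) (u := (t, θ))
      ((D.step_dif t).comp (t, θ) (f := fun v : ℝ × ℝ => (v.1, (0 : ℂ))) (by fun_prop))
    obtain ⟨L, hL, k⟩ := T.der t' _ c' (t, θ) d (.of_forall mb) e
    refine ⟨L, hL, ?_⟩
    have l1 : HasDerivAt (fun s : ℝ => (s, θ)) ((1 : ℝ), (0 : ℝ)) t :=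
      (hasDerivAt_id t).prodMk (hasDerivAt_const t θ)
    have l2 : HasDerivAt (fun s : ℝ => (t, s)) ((0 : ℝ), (1 : ℝ)) θ :=
      (hasDerivAt_const θ t).prodMk (hasDerivAt_id θ)
    have l3 : HasDerivAt (fun s : ℝ => (s, (0 : ℂ))) ((1 : ℝ), (0 : ℂ)) t :=
      (hasDerivAt_id t).prodMk (hasDerivAt_const t 0)
    have d1 := HasFDerivAt.comp_hasDerivAt t (f := fun s : ℝ => (s, θ)) d l1
    have d2 := HasFDerivAt.comp_hasDerivAt θ (f := fun s : ℝ => (t, s)) d l2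
    have d3 := HasFDerivAt.comp_hasDerivAt t (f := fun s : ℝ => (s, (0 : ℂ)))
      (D.step_dif t).hasFDerivAt l3
    have c1 : c' (1, 0) = act n θ (fderiv ℝ ν (t, 0) (1, 0)) := d1.unique (step_lin n θ d3)
    have c2 : c' (0, 1) = (2 * Real.pi * I : ℂ) • eul n (act n θ (ν (t, 0))) :=
      d2.unique (step_der n (ν (t, 0)) θ)
    have k1 := k (1, 0)
    have k2 := k (0, 1)
    dsimp only at k1 k2
    have z6 : ex θ ^ (6 - n : ℤ) = ex ((6 - n) * θ) := by
      rw [← step_zpow]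
      push_cast
      rfl
    rw [c1, step_act, step_act, om_hY hn (norm_ex θ), T.blk, om_mu, z6] at k1
    obtain ⟨ρ, ρ0, hρ⟩ := dot_star_pos (eul_ne hn (Bri_ne (mb (t, θ))))
    rw [c2, om_eul, hρ] at k2
    have x := step_det (B t') (L (1, 0)) (L (0, 1))
    rw [k1, k2] at x
    have x' : ((starRingEnd ℂ) (B t' 1) * B t' I).im * ((starRingEnd ℂ) (L (1, 0)) * L (0, 1)).im =
        (ex ((6 - n) * θ)).im * a t * (2 * Real.pi * ρ) := by
      rw [← x]
      simp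
    have s1 := step_sign T.ca T.na t
    have cB := T.cB
    have s2 := step_sign (f := fun t => ((starRingEnd ℂ) (B t 1) * B t I).im)
      (continuous_im.comp ((continuous_conj.comp (by fun_prop)).mul (by fun_prop)))
      (fun t => step_det_ne (T.iB t)) t'
    have s3 := step_det_ne (T.iB t')
    generalize ((starRingEnd ℂ) (B t' 1) * B t' I).im = δ' at x' s2 s3
    generalize ((starRingEnd ℂ) (B 0 1) * B 0 I).im = δ at s2 ⊢
    generalize ((starRingEnd ℂ) (L (1, 0)) * L (0, 1)).im = X at x' ⊢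
    generalize (ex ((6 - n) * θ)).im = y at x' σ ⊢
    have p : 0 < a 0 * a t * (δ * δ') * (y * y) * (2 * Real.pi * ρ) :=
      mul_pos (mul_pos (mul_pos s1 s2) (mul_self_pos.2 σ)) (by positivity)
    refine (mul_pos_iff_of_pos_right (mul_self_pos.2 s3)).1 ?_
    have q : a 0 * y * δ * X * (δ' * δ') = a 0 * a t * (δ * δ') * (y * y) * (2 * Real.pi * ρ) := by
      linear_combination a 0 * y * δ * δ' * x'
    rwa [q]
  · have m : act n θ (ν (t, 0)) ∈ ν '' (univ ×ˢ Metric.ball 0 1) :=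
      ⟨(t', 0), ⟨trivial, Metric.mem_ball_self one_pos⟩, e.symm⟩
    exact (tendsto_nhdsWithin_iff.2 ⟨(step_cont n D.kp.lp.1).continuousAt (x := (t, θ)),
      .of_forall mb⟩) (T.opn.2 _ m)

theorem sd_step (D : SD n ν G) (T : TC n ν Z B a) {j : ℕ} (h0 : 0 < j) (h1 : j < 6 * n) {m : ℤ}
    (W : Wn (fun s => G (act n ((j - 1 / 2) / (12 * n)) (ν (s, 0)))) m) :
    ∃ m' : ℤ, Wn (fun s => G (act n ((j + 1 / 2) / (12 * n)) (ν (s, 0)))) m' ∧
      ((m' = m ∧ j ≠ 3 * n) ∨ m' = m + 4 ∨ m' = m - 4) := by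
  have n0 : (0 : ℝ) < 12 * n := by
    have : (0 : ℝ) < n := by exact_mod_cast D.odd.pos
    linarith
  have ha : ((j : ℝ) - 1 / 2) / (12 * n) < j / (12 * n) := div_lt_div_of_pos_right (by linarith) n0
  have hb : (j : ℝ) / (12 * n) < (j + 1 / 2) / (12 * n) := div_lt_div_of_pos_right (by linarith) n0
  have mb : ∀ u : ℝ × ℝ, act n u.2 (ν (u.1, 0)) ∈ Bri n := fun u => step_bri _ (D.step_mem _)
  have ck := step_cont n D.kp.lp.1
  have per : ∀ s θ : ℝ, G (act n θ (ν (s + 1, 0))) = G (act n θ (ν (s, 0))) := fun s θ => by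
    rw [D.tube.1]
  have grid : ∀ u : ℝ × ℝ, u.2 ∈ Icc (((j : ℝ) - 1 / 2) / (12 * n)) ((j + 1 / 2) / (12 * n)) →
      star (act n u.2 (ν (u.1, 0))) = act n u.2 (ν (u.1, 0)) → u.2 = j / (12 * n) := by
    intro u hu r
    obtain ⟨i, e⟩ := cross_grid D.odd D.h3 (D.kp.lp.2.1 u.1) (D.kp.real u.1) r
    rw [e] at hu ⊢
    have p := (div_le_div_iff_of_pos_right n0).1 hu.1
    have q := (div_le_div_iff_of_pos_right n0).1 hu.2
    have p' : (j : ℤ) - 1 < i := by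
      have : ((j : ℤ) : ℝ) - 1 < i := by push_cast; linarith
      exact_mod_cast this
    have q' : i < (j : ℤ) + 1 := by
      have : (i : ℝ) < ((j : ℤ) : ℝ) + 1 := by push_cast; linarith
      exact_mod_cast this
    rw [show i = (j : ℤ) by omega, Int.cast_natCast]
  by_cases cr : (j : ℝ) / (12 * n) = 1 / 4 ∨
      ∃ s, star (act n (j / (12 * n)) (ν (s, 0))) = act n (j / (12 * n)) (ν (s, 0))
  · obtain ⟨σ, t, ht, hs⟩ := cross_two D.odd D.h3 D.kp (div_pos (by exact_mod_cast h0) n0)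
      ((div_lt_iff₀ n0).2 (by
        have : (j : ℝ) < 6 * n := by exact_mod_cast h1
        linarith)) cr
    have nr : ∀ u : ℝ × ℝ, u.2 ∈ Icc (((j : ℝ) - 1 / 2) / (12 * n)) ((j + 1 / 2) / (12 * n)) →
        ¬(u.2 = j / (12 * n) ∧ ∃ i, ∃ l : ℤ, u.1 = t i + l) →
        star (act n u.2 (ν (u.1, 0))) ≠ act n u.2 (ν (u.1, 0)) := fun u hu k r =>
      k ⟨grid u hu r, (hs u.1).1 (grid u hu r ▸ r)⟩
    have loc := fun i => step_loc D T ((hs (t i)).2 ⟨i, 0, by simp⟩) σ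
    choose L hL sg using fun i => (loc i).1
    have J := jump (F := fun u => G (act n u.2 (ν (u.1, 0))))
      (ζ := fun _ u => Z (act n u.2 (ν (u.1, 0)))) ha hb ht
      (D.cG.comp ck.continuousOn fun u hu => ⟨mb u, nr u hu.1 hu.2⟩)
      (fun u hu k => D.G0 _ (mb u) (nr u hu k)) per hL (fun i => (loc i).2.1)
      (fun i => (loc i).2.2.eventually_nhds.mono fun u hu =>
        (T.cZ.continuousOn.comp ck.continuousOn fun _ h => h).continuousAt hu)
      (fun i => ?_) sg W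
    · exact J.elim (fun h => ⟨_, h, .inr (.inl rfl)⟩) fun h => ⟨_, h, .inr (.inr rfl)⟩
    have f1 : Filter.Tendsto (Prod.fst : ℝ × ℝ → ℝ) (𝓝 (t i, j / (12 * n))) (𝓝 (t i)) :=
      continuous_fst.continuousAt
    have f2 : Filter.Tendsto (Prod.snd : ℝ × ℝ → ℝ) (𝓝 (t i, j / (12 * n))) (𝓝 (j / (12 * n))) :=
      continuous_snd.continuousAt
    filter_upwards [self_mem_nhdsWithin, nhdsWithin_le_nhds (loc i).2.2,
      nhdsWithin_le_nhds (f2 (Icc_mem_nhds ha hb)),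
      nhdsWithin_le_nhds (f1.eventually (step_disc (t i) (t true))),
      nhdsWithin_le_nhds (f1.eventually (step_disc (t i) (t false)))] with u u0 hu h2 h3 h4
    obtain ⟨⟨s, z⟩, ⟨-, hz⟩, e⟩ := hu
    have hz' : ‖z‖ < 1 := mem_ball_zero_iff.1 hz
    have r := nr u h2 fun ⟨k, i', l, k'⟩ => u0 (Prod.ext (by
      cases i'
      · exact h4 l k'
      · exact h3 l k') k)
    rw [← e] at r ⊢
    rw [T.inv s z hz']
    refine D.Gν s z (fun z0 => r ?_) hz'
    rw [z0]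
    exact D.kp.real s
  · have nr : ∀ u : ℝ × ℝ, u.2 ∈ Icc (((j : ℝ) - 1 / 2) / (12 * n)) ((j + 1 / 2) / (12 * n)) →
        star (act n u.2 (ν (u.1, 0))) ≠ act n u.2 (ν (u.1, 0)) := fun u hu r =>
      cr (.inr ⟨u.1, grid u hu r ▸ r⟩)
    refine ⟨m, step_htpy (F := fun u => G (act n u.2 (ν (u.1, 0)))) (ha.trans hb).le
      (D.cG.comp ck.continuousOn fun u hu => ⟨mb u, nr u hu⟩)
      (fun u hu => D.G0 _ (mb u) (nr u hu)) per W, .inl ⟨rfl, fun e => cr (.inl ?_)⟩⟩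
    rw [div_eq_iff n0.ne', e]
    push_cast
    ring

end Pool.Agent.Lib.MP_b2e238_gt
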